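import Pool.Agent.H76.MB.Def

/-!
# MB.LEMA: Lemma A and Lemma B
-/

set_option autoImplicit false

namespace Pool.Agent.H76.MB

variable {G : Type*} [Group G]

/-- Law L for two conjugates `a ^ s`, `a ^ t` of `a`. -/
theorem law_conj (hL : LawL G) (a s t : G) :
    Commute ((cj a s)⁻¹ * cj a t) (cj ((cj a s)⁻¹ * cj a t) (cj a s)) := by
  have h := hL (cj a s) (s⁻¹ * t)
  have h1 : cm (cj a s) (s⁻¹ * t) = (cj a s)⁻¹ * cj a t := by unfold cm cj; group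
  rw [h1] at h
  exact h

/-- Lemma A. -/
theorem lemA (hG : OddG G) (hL : LawL G) {a w : G} (h : C2 a w) (t : G) :
    Commute (cm a w) (cj (cm a w) (cj a t)) ∧
      cj (cm a w) (cj a t) * cj (cm a w) ((cj a t)⁻¹ * a ^ 2) = (cm a w) ^ 2 := by
  obtain ⟨ha, hw⟩ := h
  set e := cm a w with he
  set b := cj a t with hb
  have hconj1 : cj a w = a * e := cj_eq a w
  have hconj2 : cj a (w ^ 2) = a * e ^ 2 := by
    rw [pow_two, ← cj_cj, hconj1, cj_mul, hconj1, cj_eq_of_comm hw.symm, pow_two, mul_assoc]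
  have l0 := law_conj hL a 1 t
  rw [cj_one, ← hb] at l0
  have l1 := law_conj hL a w t
  rw [hconj1, ← hb] at l1
  have l2 := law_conj hL a (w ^ 2) t
  rw [hconj2, ← hb] at l2
  -- the elements
  set v := a⁻¹ * b with hv
  set v1 := cj v a with hv1
  have hae : a * e = e * a := ha.eq
  have hae' : a⁻¹ * e = e * a⁻¹ := ha.inv_left.eq
  have hkey : ∀ f : G, Commute a f →
      Commute ((a * f)⁻¹ * b) (cj ((a * f)⁻¹ * b) (a * f)) →
      f⁻¹ * f⁻¹ = (v⁻¹ * f⁻¹ * v) * (v1 * f⁻¹ * v1⁻¹) := by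
    intro f hf hc
    have e1 : (a * f)⁻¹ * b = f⁻¹ * v := by rw [hv]; group
    have e2 : cj (f⁻¹ * v) (a * f) = f⁻¹ * f⁻¹ * v1 * f := by
      rw [← cj_cj, cj_mul, ← hv1]
      have : cj f⁻¹ a = f⁻¹ := cj_eq_of_comm hf.symm.inv_left
      rw [this]
      unfold cj
      group
    rw [e1, e2] at hc
    have hc' := hc.eq
    have l0' : v * v1 = v1 * v := l0.eq
    have e3 : f⁻¹ * v * (f⁻¹ * f⁻¹ * v1 * f) = f⁻¹ * f⁻¹ * v * v1 := by
      rw [hc']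
      calc f⁻¹ * f⁻¹ * v1 * f * (f⁻¹ * v) = f⁻¹ * f⁻¹ * (v1 * v) := by group
        _ = f⁻¹ * f⁻¹ * v * v1 := by rw [← l0']; group
    calc f⁻¹ * f⁻¹ = v⁻¹ * f * (f⁻¹ * v * (f⁻¹ * f⁻¹ * v1 * f)) * f⁻¹ * v1⁻¹ := by group
      _ = v⁻¹ * f * (f⁻¹ * f⁻¹ * v * v1) * f⁻¹ * v1⁻¹ := by rw [e3]
      _ = (v⁻¹ * f⁻¹ * v) * (v1 * f⁻¹ * v1⁻¹) := by group
  have k1 := hkey e ha l1
  have k2 := hkey (e ^ 2) (ha.pow_right 2) l2
  set P := cj e b with hP
  set Q := cj e (b⁻¹ * a ^ 2) with hQ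
  have hPv : v⁻¹ * e * v = P := by
    rw [hP, hv]
    calc (a⁻¹ * b)⁻¹ * e * (a⁻¹ * b) = b⁻¹ * (a * e) * a⁻¹ * b := by group
      _ = cj e b := by rw [hae]; unfold cj; group
  have hQv : v1 * e * v1⁻¹ = Q := by
    rw [hQ, hv1, hv]
    unfold cj
    calc (a⁻¹ * (a⁻¹ * b) * a) * e * (a⁻¹ * (a⁻¹ * b) * a)⁻¹
        = a⁻¹ * a⁻¹ * b * (a * e) * a⁻¹ * b⁻¹ * a * a := by
          simp only [mul_inv_rev, inv_inv, mul_assoc]
      _ = (b⁻¹ * a ^ 2)⁻¹ * e * (b⁻¹ * a ^ 2) := by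
          rw [hae, pow_two]
          simp only [mul_inv_rev, inv_inv, mul_assoc, mul_inv_cancel_left]
  have p1 : v⁻¹ * e⁻¹ * v = P⁻¹ := by rw [← hPv]; group
  have q1 : v1 * e⁻¹ * v1⁻¹ = Q⁻¹ := by rw [← hQv]; group
  have p2 : v⁻¹ * (e ^ 2)⁻¹ * v = P⁻¹ * P⁻¹ := by rw [← hPv]; group
  have q2 : v1 * (e ^ 2)⁻¹ * v1⁻¹ = Q⁻¹ * Q⁻¹ := by rw [← hQv]; group
  rw [p1, q1] at k1
  rw [p2, q2] at k2
  have k3 : (e ^ 2)⁻¹ * (e ^ 2)⁻¹ = (P⁻¹ * Q⁻¹) * (P⁻¹ * Q⁻¹) := by rw [← k1]; group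
  have k4 : Q⁻¹ * P⁻¹ = P⁻¹ * Q⁻¹ := by
    have := k2.symm.trans k3
    calc Q⁻¹ * P⁻¹ = P * ((P⁻¹ * Q⁻¹) * (P⁻¹ * Q⁻¹)) * Q := by group
      _ = P * (P⁻¹ * P⁻¹ * (Q⁻¹ * Q⁻¹)) * Q := by rw [this]
      _ = P⁻¹ * Q⁻¹ := by group
  have k5 : P * Q = Q * P := by
    have := congrArg (fun z => z⁻¹) k4
    simpa using this
  have k6 : P * Q = e ^ 2 := by
    have := congrArg (fun z => z⁻¹) k1
    simp only [mul_inv_rev, inv_inv] at this
    rw [k5, ← this, pow_two]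
  refine ⟨?_, k6⟩
  have k7 : Commute P (e ^ 2) := by
    rw [← k6]
    exact (Commute.refl P).mul_right k5
  exact (comm_of_sq hG k7).symm

/-- Lemma B. -/
theorem lemB (hG : OddG G) (hL : LawL G) {a w : G} (h : C2 a w) (g : G) :
    Commute (cm a w) (cj (cm a w) (cj (cm a w) g)) := by
  obtain ⟨ha, hw⟩ := h
  have hA := lemA hG hL (⟨ha, hw⟩ : C2 a w)
  set e := cm a w with he
  set f := cj e g with hf
  set c := cj a g with hc
  set d := cj w g with hd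
  have hfc : f = cm c d := by rw [hf, he, cj_cm]
  have hcf : Commute c f := by rw [hc, hf]; exact comm_cj ha g
  have hdf : Commute d f := by rw [hd, hf]; exact comm_cj hw g
  have hcd : cj c d = c * f := by rw [cj_eq, ← hfc]
  have hcd' : cj c d⁻¹ = c * f⁻¹ := by
    have h1 : cj (c * f) d⁻¹ = c := by rw [← hcd, cj_cj, mul_inv_cancel, cj_one]
    rw [cj_mul, cj_eq_of_comm hdf.symm.inv_right] at h1
    rw [eq_mul_inv_iff_mul_eq]
    exact h1
  set E := fun k : G => cj e k with hE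
  set ep := cj (e ^ 2) c⁻¹ with hep
  set s := c⁻¹ * a ^ 2 * c⁻¹ with hs
  -- for k = 1, f, f⁻¹
  have key : ∀ k : G, Commute c k → (∃ t, c * k = cj a t) →
      Commute ep (E k) ∧ cj (E k⁻¹) s = (E k)⁻¹ * ep := by
    intro k hk ⟨t, ht⟩
    obtain ⟨a1, a2⟩ := hA t
    rw [← ht] at a1 a2
    have b1 : cj e (c * k) = cj (E k) c := by
      rw [hE, cj_cj, hk.eq]
    constructor
    · apply comm_of_comm_cj (t := c)
      rw [← b1, hep, cj_cj, inv_mul_cancel, cj_one]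
      exact a1.pow_left 2
    · have b2 : cj e ((c * k)⁻¹ * a ^ 2) = cj (cj (E k⁻¹) s) c := by
        rw [hE, cj_cj, cj_cj, hs]
        congr 1
        have : (c * k)⁻¹ = k⁻¹ * c⁻¹ := by group
        rw [this]; group
      rw [b1, b2, ← cj_mul] at a2
      have b3 : E k * cj (E k⁻¹) s = ep := by
        rw [hep, ← a2, cj_cj (E k * cj (E k⁻¹) s) c c⁻¹, mul_inv_cancel, cj_one]
      rw [← b3]; group
  have hk1 := key 1 (Commute.one_right c) ⟨g, by rw [mul_one]⟩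
  have hkf := key f hcf ⟨g * d, by rw [← hcd, hc, cj_cj]⟩
  have hkf' := key f⁻¹ hcf.inv_right ⟨g * d⁻¹, by rw [← hcd', hc, cj_cj]⟩
  rw [inv_inv] at hkf'
  rw [inv_one] at hk1
  have hE1 : E 1 = e := cj_one e
  rw [hE1] at hk1
  obtain ⟨c1, d1⟩ := hk1
  obtain ⟨cf, df⟩ := hkf
  obtain ⟨cf', df'⟩ := hkf'
  -- s ^ 2 centralises E f * e⁻¹
  have hs2 : ∀ x y : G, Commute ep x → cj x s = y⁻¹ * ep → cj y s = x⁻¹ * ep →
      cj x (s ^ 2) = x * (ep⁻¹ * cj ep s) := by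
    intro x y hx hxy hyx
    rw [pow_two, ← cj_cj, hxy, cj_mul, cj_inv, hyx]
    calc (x⁻¹ * ep)⁻¹ * cj ep s = (ep⁻¹ * x) * cj ep s := by group
      _ = x * (ep⁻¹ * cj ep s) := by rw [hx.inv_left.eq, mul_assoc]
  have s1 := hs2 (E f) (E f⁻¹) cf df' df
  have s2 := hs2 e e c1 d1 d1
  have s3 : Commute (E f * e⁻¹) (s ^ 2) := by
    apply comm_of_cj_eq
    rw [cj_mul, cj_inv, s1, s2]; group
  have s4 : Commute (E f * e⁻¹) s := comm_of_sq hG s3
  have s5 : E f * e⁻¹ = (E f⁻¹)⁻¹ * e := by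
    have := cj_eq_of_comm s4
    rw [cj_mul, cj_inv, df', d1] at this
    rw [← this]; group
  have s3' : Commute (E f⁻¹ * e⁻¹) (s ^ 2) := by
    apply comm_of_cj_eq
    rw [cj_mul, cj_inv, hs2 (E f⁻¹) (E f) cf' df df', s2]; group
  have s4' : Commute (E f⁻¹ * e⁻¹) s := comm_of_sq hG s3'
  have s5' : E f⁻¹ * e⁻¹ = (E f)⁻¹ * e := by
    have := cj_eq_of_comm s4'
    rw [cj_mul, cj_inv, df, d1] at this
    rw [← this]; group
  have s6 : E f⁻¹ * E f = e ^ 2 := by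
    calc E f⁻¹ * E f = E f⁻¹ * (E f * e⁻¹) * e := by group
      _ = e ^ 2 := by rw [s5, pow_two]; group
  have s6' : E f * E f⁻¹ = e ^ 2 := by
    calc E f * E f⁻¹ = E f * (E f⁻¹ * e⁻¹) * e := by group
      _ = e ^ 2 := by rw [s5', pow_two]; group
  have s7 : Commute (E f) (e ^ 2) := by
    rw [← s6]
    change E f * (E f⁻¹ * E f) = E f⁻¹ * E f * E f
    rw [← mul_assoc, s6', s6]
  exact (comm_of_sq hG s7).symm

/-- `⟨e, e ^ g⟩` has class at most two. -/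
theorem lemB2 (hG : OddG G) (hL : LawL G) {a w : G} (h : C2 a w) (s t : G) :
    C2 (cj (cm a w) s) (cj (cm a w) t) := by
  have hst : ∀ g : G, C2 (cm a w) (cj (cm a w) g) := by
    intro g
    have h1 := lemB hG hL h g
    have h2 := lemB hG hL h g⁻¹
    set e := cm a w with he
    constructor
    · rw [cm_eq]
      exact (Commute.refl e).inv_right.mul_right h1
    · have h3 : Commute (cj e g) (cj (cj e g) e) := by
        have h4 := comm_cj h2 g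
        have h5 : cj (cj e (cj e g⁻¹)) g = cj (cj e g) e := by
          unfold cj; group
        rwa [h5] at h4
      have h6 : cm e (cj e g) = (cj (cj e g) e)⁻¹ * cj e g := by
        unfold cm cj; group
      rw [h6]
      exact h3.inv_right.mul_right (Commute.refl _)
  have h1 := hst (t * s⁻¹)
  set e := cm a w with he
  have h2 : cm (cj e s) (cj e t) = cj (cm e (cj e (t * s⁻¹))) s := by
    rw [cj_cm e (cj e (t * s⁻¹)) s, cj_cj e (t * s⁻¹) s]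
    congr 2
    group
  have h3 : cj (cj e (t * s⁻¹)) s = cj e t := by
    rw [cj_cj]; congr 1; group
  constructor
  · rw [h2]; exact comm_cj h1.1 s
  · rw [h2, ← h3]; exact comm_cj h1.2 s

end Pool.Agent.H76.MB
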