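import Pool.Agent.H76.MB.AllQ

/-!
# MB.ODDQ: `Q(n)` for odd `n` and for all `n`
-/

set_option autoImplicit false

namespace Pool.Agent.H76.MB

open Subgroup

variable {G : Type*} [Group G]

theorem LawL.subgroup (hL : LawL G) (K : Subgroup G) : LawL K := by
  intro x y
  have h := hL (x : G) (y : G)
  have e1 : ((cm x y : K) : G) = cm (x : G) (y : G) := cm_map K.subtype x y
  have e2 : ((cj (cm x y) x : K) : G) = cj (cm (x : G) (y : G)) (x : G) := by
    unfold cj cm; simp
  apply Subtype.ext
  change ((cm x y : K) : G) * ((cj (cm x y) x : K) : G) =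
    ((cj (cm x y) x : K) : G) * ((cm x y : K) : G)
  rw [e2, e1]
  exact h.eq

theorem F5_map {K : Subgroup G} (a b c d e : K) :
    ((F5 a b c d e : K) : G) = F5 (a : G) (b : G) (c : G) (d : G) (e : G) := by
  unfold F5 cm; simp

/-- polarisation in a subgroup of class at most five -/
theorem polar_sub (hL : LawL G) (K : Subgroup G) (h5 : lc K 5 = ⊥) {a b c p q : G} (ha : a ∈ K)
    (hb : b ∈ K) (hc : c ∈ K) (hp : p ∈ K) (hq : q ∈ K) :
    F5 a p b q c * F5 a q b p c * (F5 a p c q b * F5 a q c p b) *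
      (F5 b p a q c * F5 b q a p c) * (F5 b p c q a * F5 b q c p a) *
      (F5 c p a q b * F5 c q a p b) * (F5 c p b q a * F5 c q b p a) = 1 := by
  have h := polar h5 (hL.subgroup K) ⟨a, ha⟩ ⟨b, hb⟩ ⟨c, hc⟩ ⟨p, hp⟩ ⟨q, hq⟩
  have h' := congrArg (fun z : K => (z : G)) h
  simp only [Subgroup.coe_mul, F5_map, Subgroup.coe_one] at h'
  exact h'

namespace Sand

variable {X : Set G}

theorem rel_lt (hG : OddG G) (hS : Sand X) {N : ℕ} (hQ : ∀ m < N, Q X m) {x : G} (hx : x ∈ X)
    {B C : List G} (hB : ∀ d ∈ B, d ∈ X) (hC : ∀ d ∈ C, d ∈ X)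
    (hlen : B.length + C.length < N) : cm (itc x B) (itc x C) = 1 := by
  rw [rel hG hS (B.length + C.length) (fun m hm => hQ m (by omega)) x hx B C hB hC rfl,
    hQ _ hlen x hx (B ++ C) (by
      intro b hb
      rcases List.mem_append.mp hb with h | h
      · exact hB b h
      · exact hC b h) (by simp), one_zpow]

theorem rel_perm (hG : OddG G) (hS : Sand X) {N : ℕ} (hN : 0 < N) (hQ : ∀ m < N, Q X m) {x : G}
    (hx : x ∈ X) {B C l : List G} (hB : ∀ d ∈ B, d ∈ X) (hC : ∀ d ∈ C, d ∈ X)
    (hlen : B.length + C.length = N) (hp : (B ++ C).Perm l) :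
    cm (itc x B) (itc x C) = gam x l ^ ((-1 : ℤ) ^ B.length) := by
  rw [rel hG hS N hQ x hx B C hB hC hlen]
  rw [gam_perm' hG hS (hQ (N - 1) (by omega)) hx hp (by
      intro b hb
      rcases List.mem_append.mp hb with h | h
      · exact hB b h
      · exact hC b h) (by simp; omega)]

/-- Odd `N ≥ 3`. -/
theorem Q_odd (hG : OddG G) (hL : LawL G) (hS : Sand X) {N : ℕ} (hN : Odd N) (hN3 : 3 ≤ N)
    (hQ : ∀ m < N, Q X m) : Q X N := by
  classical
  intro x hx l hl hlen
  -- split l
  obtain ⟨B, T, hBT, hBlen, hTlen⟩ : ∃ B T : List G, l = B ++ T ∧ B.length = N - 3 ∧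
      T.length = 3 :=
    ⟨l.take (N - 3), l.drop (N - 3), (List.take_append_drop _ _).symm,
      by rw [List.length_take]; omega, by rw [List.length_drop]; omega⟩
  obtain ⟨c, d, k, rfl⟩ : ∃ c d k : G, T = [c, d, k] := by
    rcases T with _ | ⟨c, _ | ⟨d, _ | ⟨k, _ | ⟨k', T⟩⟩⟩⟩ <;> simp at hTlen
    exact ⟨c, d, k, rfl⟩
  subst hBT
  have hB : ∀ b ∈ B, b ∈ X := fun b hb => hl b (by simp [hb])
  have hc : c ∈ X := hl c (by simp)
  have hd : d ∈ X := hl d (by simp)
  have hk : k ∈ X := hl k (by simp)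
  set u := itc x B with hu
  have huX : u ∈ X := hS.itc_mem hx hB
  have hBeven : Even B.length := by
    rw [hBlen]
    obtain ⟨m, hm⟩ := hN
    exact ⟨m - 1, by omega⟩
  -- class at most five
  obtain ⟨s, hs5, hxs, hus, hcs, hds, hks⟩ : ∃ s : Finset G, lc (closure (s : Set G)) 5 = ⊥ ∧
      x ∈ s ∧ u ∈ s ∧ c ∈ s ∧ d ∈ s ∧ k ∈ s := by
    by_cases h3 : N = 3
    · have hB0 : B = [] := List.length_eq_zero_iff.mp (by omega)
      have hux : u = x := by rw [hu, hB0]; rfl
      refine ⟨{x, c, d, k}, ?_, by simp, by simp [hux], by simp, by simp, by simp⟩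
      apply class_four hG hS (fun m hm => hQ m (by omega))
      · intro b hb
        simp only [Finset.mem_insert, Finset.mem_singleton] at hb
        rcases hb with rfl | rfl | rfl | rfl <;> assumption
      · exact Finset.card_le_four
    · refine ⟨{x, u, c, d, k}, ?_, by simp, by simp, by simp, by simp, by simp⟩
      have hcard : ({x, u, c, d, k} : Finset G).card ≤ 5 := Finset.card_le_five
      have h1 := class_of_Q hS (M := 4) (fun m hm => hQ m (by
          obtain ⟨m', hm'⟩ := hN; omega)) {x, u, c, d, k} (by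
        intro b hb
        simp only [Finset.mem_insert, Finset.mem_singleton] at hb
        rcases hb with rfl | rfl | rfl | rfl | rfl <;> assumption) hcard
      have h2 := lc_anti (G := closure (({x, u, c, d, k} : Finset G) : Set G)) hcard
      rw [h1] at h2
      exact le_bot_iff.mp h2
  have hK : ∀ {g : G}, g ∈ s → g ∈ closure (s : Set G) := fun hg =>
    subset_closure (by exact_mod_cast hg)
  have hpol := polar_sub hL (closure (s : Set G)) hs5 (hK hxs) (hK hus) (hK hks) (hK hcs) (hK hds)
  -- the twelve terms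
  set g := gam x (B ++ [c, d, k]) with hg
  have odd1 : ((-1 : ℤ) ^ 1) = -1 := by norm_num
  have hcd : cm c d ∈ X := hS.cm_mem c hc d hd
  have hkd : cm k d ∈ X := hS.cm_mem k hk d hd
  have hkc : cm k c ∈ X := hS.cm_mem k hk c hc
  have kill : ∀ a b : G, cm a b = 1 → cm a b⁻¹ = 1 := by
    intro a b h
    exact cm_eq_one.mpr (cm_eq_one.mp h).inv_right
  have kill' : ∀ a b : G, b = 1 → cm a b = 1 := by
    intro a b h
    rw [h]; exact cm_eq_one.mpr (Commute.one_right a)
  have memapp : ∀ {B C : List G}, (∀ b ∈ B, b ∈ X) → (∀ b ∈ C, b ∈ X) →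
      ∀ b ∈ B ++ C, b ∈ X := by
    intro B C hB hC b hb
    rcases List.mem_append.mp hb with h | h
    · exact hB b h
    · exact hC b h
  have permA : ∀ y z w : G, ([y, z, w] : List G).Perm [c, d, k] →
      ([y] ++ (B ++ [z, w])).Perm (B ++ [c, d, k]) := by
    intro y z w h
    have h1 : ([y] ++ (B ++ [z, w])).Perm (B ++ [y, z, w]) :=
      (List.perm_middle (a := y) (l₁ := B) (l₂ := [z, w])).symm
    exact h1.trans (h.append_left B)
  have permB : ∀ y z w : G, ([y, z, w] : List G).Perm [c, d, k] →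
      ((B ++ [y]) ++ [z, w]).Perm (B ++ [c, d, k]) := by
    intro y z w h
    rw [List.append_assoc]
    exact h.append_left B
  have p1 : ([c, d, k] : List G).Perm [c, d, k] := List.Perm.refl _
  have p2 : ([d, c, k] : List G).Perm [c, d, k] := List.Perm.swap c d [k]
  have e1 : F5 x c u d k = g⁻¹ := by
    have := rel_perm hG hS (by omega) hQ hx (B := [c]) (C := B ++ [d, k]) (by simp [hc])
      (memapp hB (by simp [hd, hk])) (by simp; omega) (permA c d k p1)
    rw [List.length_singleton, odd1, zpow_neg_one] at this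
    rw [← this, itc_append, ← hu]
    rfl
  have e2 : F5 x d u c k = g⁻¹ := by
    have := rel_perm hG hS (by omega) hQ hx (B := [d]) (C := B ++ [c, k]) (by simp [hd])
      (memapp hB (by simp [hc, hk])) (by simp; omega) (permA d c k p2)
    rw [List.length_singleton, odd1, zpow_neg_one] at this
    rw [← this, itc_append, ← hu]
    rfl
  have oddB : ((-1 : ℤ) ^ (B.length + 1)) = -1 := by
    rw [pow_succ, hBeven.neg_one_pow]; norm_num
  have e5 : F5 u c x d k = g⁻¹ := by
    have := rel_perm hG hS (by omega) hQ hx (B := B ++ [c]) (C := [d, k])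
      (memapp hB (by simp [hc])) (by simp [hd, hk]) (by simp; omega) (permB c d k p1)
    rw [List.length_append, List.length_singleton, oddB, zpow_neg_one] at this
    rw [← this, itc_append, ← hu]
    rfl
  have e6 : F5 u d x c k = g⁻¹ := by
    have := rel_perm hG hS (by omega) hQ hx (B := B ++ [d]) (C := [c, k])
      (memapp hB (by simp [hd])) (by simp [hc, hk]) (by simp; omega) (permB d c k p2)
    rw [List.length_append, List.length_singleton, oddB, zpow_neg_one] at this
    rw [← this, itc_append, ← hu]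
    rfl
  have gen3 : ∀ y z : G, y ∈ X → z ∈ X → F5 x y k z u = 1 := by
    intro y z hy hz
    have hkz : cm k z ∈ X := hS.cm_mem k hk z hz
    have := rel_lt hG hS hQ hx (B := [y]) (C := B ++ [cm k z]) (by simp [hy])
      (memapp hB (by simp [hkz])) (by simp; omega)
    rw [itc_append, ← hu] at this
    have h1 : F5 x y k z u = cm (itc x [y]) (itc u [cm k z])⁻¹ := by
      unfold F5
      change cm (cm x y) (cm (cm k z) u) = cm (cm x y) (cm u (cm k z))⁻¹
      rw [cm_inv]
    rw [h1]
    exact kill _ _ this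
  have gen7 : ∀ y z : G, y ∈ X → z ∈ X → F5 u y k z x = 1 := by
    intro y z hy hz
    have hkz : cm k z ∈ X := hS.cm_mem k hk z hz
    have := rel_lt hG hS hQ hx (B := B ++ [y]) (C := [cm k z])
      (memapp hB (by simp [hy])) (by simp [hkz]) (by simp; omega)
    rw [itc_append, ← hu] at this
    have h1 : F5 u y k z x = cm (itc u [y]) (itc x [cm k z])⁻¹ := by
      unfold F5
      change cm (cm u y) (cm (cm k z) x) = cm (cm u y) (cm x (cm k z))⁻¹
      rw [cm_inv]
    rw [h1]
    exact kill _ _ this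
  have gen9 : ∀ y z : G, z ∈ X → F5 k y x z u = 1 := by
    intro y z hz
    have := rel_lt hG hS hQ hx (B := [z]) (C := B) (by simp [hz]) hB (by simp; omega)
    unfold F5
    exact kill' _ _ this
  have gen11 : ∀ y z : G, z ∈ X → F5 k y u z x = 1 := by
    intro y z hz
    have := rel_lt hG hS hQ hx (B := B ++ [z]) (C := []) (memapp hB (by simp [hz])) (by simp)
      (by simp; omega)
    rw [itc_append, ← hu] at this
    unfold F5
    exact kill' _ _ this
  rw [e1, e2, gen3 c d hc hd, gen3 d c hd hc, e5, e6, gen7 c d hc hd, gen7 d c hd hc,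
    gen9 c d hd, gen9 d c hc, gen11 c d hd, gen11 d c hc] at hpol
  have hpol' : (g ^ 4)⁻¹ = 1 := by
    rw [← hpol]; group
  exact eq_one_of_four hG (inv_eq_one.mp hpol')

/-- `Q(n)` for all `n`. -/
theorem Q_all (hG : OddG G) (hL : LawL G) (hS : Sand X) (N : ℕ) : Q X N := by
  induction N using Nat.strong_induction_on with
  | _ N ih =>
    rcases Nat.even_or_odd N with h | h
    · exact Q_even hG hS h ih
    · by_cases h3 : 3 ≤ N
      · exact Q_odd hG hL hS h h3 ih
      · have : N = 1 := by obtain ⟨m, hm⟩ := h; omega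
        subst this
        exact Q_one hS

/-- Finitely many elements of `X` generate a nilpotent group. -/
theorem class_fin (hG : OddG G) (hL : LawL G) (hS : Sand X) (s : Finset G)
    (hs : ∀ b ∈ s, b ∈ X) : lc (closure (s : Set G)) s.card = ⊥ :=
  class_of_Q hS (M := s.card) (fun m _ => Q_all hG hL hS m) s hs (by omega)

end Sand

end Pool.Agent.H76.MB
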