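import Pool.Agent.H76.MB.Lf
import Pool.Agent.H76.MB.OddQ
import Pool.Agent.H76.MB.LemA

/-!
# MB.FIN: conjugate pairs and the conclusion
-/

set_option autoImplicit false

namespace Pool.Agent.H76.MB

open Subgroup
open scoped commutatorElement

section Pair

variable {G : Type*} [Group G]

/-- Relation (R): `[v, (u^x)⁻¹] = [(v^x)⁻¹, u]`, used in the form: if `u` commutes with `v`
up to one step, then with the next step. -/
theorem pair_step (hL : LawL G) {x g h : G}
    (hc : Commute (cm x h) (cj (cm x g) x)) :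
    Commute (cj (cm x h) x) (cm x g) := by
  set u := cm x g with hu
  set v := cm x h with hv
  have lu : Commute u (cj u x) := hL x g
  have lv : Commute v (cj v x) := hL x h
  -- the conjugates x u = x^g, x v = x^h
  have hxu : cj x g = x * u := cj_eq x g
  have hxv : cj x h = x * v := cj_eq x h
  have l := hL (cj x g) (g⁻¹ * h)
  have h1 : cm (cj x g) (g⁻¹ * h) = u⁻¹ * v := by
    have : cm (cj x g) (g⁻¹ * h) = (cj x g)⁻¹ * cj x h := by unfold cm cj; group
    rw [this, hxu, hxv]; group
  rw [h1, hxu] at l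
  -- conjugate by u⁻¹
  have l2 := comm_cj l u⁻¹
  have e1 : cj (u⁻¹ * v) u⁻¹ = v * u⁻¹ := by unfold cj; group
  have e2 : cj (cj (u⁻¹ * v) (x * u)) u⁻¹ = (cj u x)⁻¹ * cj v x := by
    rw [cj_cj]
    have : x * u * u⁻¹ = x := by group
    rw [this, cj_mul, cj_inv]
  rw [e1, e2] at l2
  set U := cj u x with hU
  set V := cj v x with hV
  -- l2 : v u⁻¹ commutes with U⁻¹ V; lu: u U = U u; lv : v V = V v; hc : v U = U v
  have l3 : v * u⁻¹ * (U⁻¹ * V) = U⁻¹ * V * (v * u⁻¹) := l2.eq
  have l4 : v * u⁻¹ * (U⁻¹ * V) = U⁻¹ * v * (u⁻¹ * V) := by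
    calc v * u⁻¹ * (U⁻¹ * V) = v * (u⁻¹ * U⁻¹) * V := by group
      _ = (v * U⁻¹) * u⁻¹ * V := by rw [lu.inv_inv.eq]; group
      _ = U⁻¹ * v * (u⁻¹ * V) := by rw [hc.inv_right.eq]; group
  have l5 : U⁻¹ * V * (v * u⁻¹) = U⁻¹ * v * (V * u⁻¹) := by
    calc U⁻¹ * V * (v * u⁻¹) = U⁻¹ * (V * v) * u⁻¹ := by group
      _ = U⁻¹ * v * (V * u⁻¹) := by rw [← lv.eq]; group
  rw [l4, l5] at l3
  have l6 : u⁻¹ * V = V * u⁻¹ := mul_left_cancel l3
  have l7 : Commute V u⁻¹ := l6.symm
  simpa using l7.inv_right

theorem cj_pow_cm (x g : G) (i : ℕ) : cj (cm x g) (x ^ i) = cm x (g * x ^ i) := by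
  unfold cj cm
  have : (x ^ i)⁻¹ * x⁻¹ = x⁻¹ * (x ^ i)⁻¹ := by
    rw [← mul_inv_rev, ← mul_inv_rev, ← pow_succ, ← pow_succ']
  calc (x ^ i)⁻¹ * (x⁻¹ * g⁻¹ * x * g) * x ^ i
      = ((x ^ i)⁻¹ * x⁻¹) * g⁻¹ * x * g * x ^ i := by group
    _ = x⁻¹ * (g * x ^ i)⁻¹ * x * (g * x ^ i) := by rw [this]; group

/-- `u = [x, g]` commutes with all `u ^ (x ^ i)`. -/
theorem pair_all (hL : LawL G) (x g : G) (i : ℕ) :
    Commute (cm x g) (cj (cm x g) (x ^ i)) := by
  induction i using Nat.strong_induction_on with
  | _ i ih =>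
    rcases i with _ | _ | i
    · rw [pow_zero, cj_one]
    · rw [zero_add, pow_one]; exact hL x g
    · have h1 : Commute (cm x (g * x ^ (i + 1))) (cj (cm x g) x) := by
        rw [← cj_pow_cm, pow_succ, ← cj_cj]
        exact comm_cj (ih i (by omega)).symm x
      have h2 := pair_step hL h1
      rw [← cj_pow_cm, cj_cj, ← pow_succ] at h2
      exact h2.symm

/-- All conjugates of `u = [x, g]` under powers of `x` commute. -/
theorem pair_all' (hL : LawL G) (x g : G) (i j : ℕ) :
    Commute (cj (cm x g) (x ^ i)) (cj (cm x g) (x ^ j)) := by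
  have key : ∀ i j : ℕ, i ≤ j → Commute (cj (cm x g) (x ^ i)) (cj (cm x g) (x ^ j)) := by
    intro i j hij
    obtain ⟨k, rfl⟩ := Nat.exists_eq_add_of_le hij
    have h := comm_cj (pair_all hL x g k) (x ^ i)
    rwa [cj_cj, ← pow_add, Nat.add_comm k i] at h
  rcases le_total i j with h | h
  · exact key i j h
  · exact (key j i h).symm

/-- The subgroup generated by `x` and `u = [x, g]` is locally finite. -/
theorem pair_LF (hL : LawL G) (ht : ∀ g : G, IsOfFinOrder g) (x g : G) :
    LF (closure {x, cm x g} : Subgroup G) := by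
  set u := cm x g with hu
  set T := closure {x, u} with hT
  have hxT : x ∈ T := subset_closure (by simp)
  have huT : u ∈ T := subset_closure (by simp)
  let x' : T := ⟨x, hxT⟩
  let u' : T := ⟨u, huT⟩
  set A : Set T := {y | ∃ i : ℕ, y = cj u' (x' ^ i)} with hA
  set N := closure A with hN
  have hAc : ∀ y ∈ A, ∀ z ∈ A, Commute y z := by
    rintro _ ⟨i, rfl⟩ _ ⟨j, rfl⟩
    have h := pair_all' hL x g i j
    apply Subtype.ext
    have e : ∀ i : ℕ, ((cj u' (x' ^ i) : T) : G) = cj u (x ^ i) := by
      intro i; unfold cj; simp [x', u']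
    rw [Subgroup.coe_mul, Subgroup.coe_mul, e, e]
    exact h.eq
  have hNc : ∀ y ∈ N, ∀ z ∈ N, Commute y z := by
    intro y hy z hz
    refine comm_closure (fun a ha => ?_) hz
    exact (comm_closure (fun b hb => hAc a ha b hb) hy).symm
  -- x has finite order
  obtain ⟨n, hn, hxn⟩ := isOfFinOrder_iff_pow_eq_one.mp (ht x)
  have hxn' : x' ^ n = 1 := Subtype.ext hxn
  have hxinv : ∃ m : ℕ, x'⁻¹ = x' ^ m := by
    refine ⟨n - 1, ?_⟩
    rw [inv_eq_iff_mul_eq_one, ← pow_succ']
    rw [show n - 1 + 1 = n by omega]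
    exact hxn'
  -- normality: conjugation by x' and x'⁻¹ and u'
  have hclos : closure ({x', u'} : Set T) = ⊤ := by
    have h1 := closure_closure_coe_preimage (k := ({x, u} : Set G))
    have h2 : ((T.subtype ⁻¹' ({x, u} : Set G)) : Set T) = {x', u'} := by
      ext y
      constructor
      · intro hy
        rcases hy with h | h
        · left; exact Subtype.ext h
        · right; exact Subtype.ext h
      · rintro (h | h)
        · rw [h]; left; rfl
        · rw [h]; right; rfl
    rw [← h2]
    exact h1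
  have hconj : ∀ t : T, (∀ y ∈ A, cj y t ∈ N) → ∀ y ∈ N, cj y t ∈ N := by
    intro t h y hy
    induction hy using closure_induction with
    | mem y hy => exact h y hy
    | one => rw [one_cj]; exact one_mem N
    | mul a b _ _ ha hb => rw [cj_mul]; exact mul_mem ha hb
    | inv a _ ha => rw [cj_inv]; exact inv_mem ha
  have hxp : ∀ m : ℕ, ∀ y ∈ A, cj y (x' ^ m) ∈ N := by
    rintro m _ ⟨i, rfl⟩
    rw [cj_cj, ← pow_add]
    exact subset_closure ⟨i + m, rfl⟩
  have hu'N : u' ∈ N := subset_closure ⟨0, by rw [pow_zero, cj_one]⟩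
  have hall : ∀ t : T, (∀ y ∈ N, cj y t ∈ N) ∧ (∀ y ∈ N, cj y t⁻¹ ∈ N) := by
    intro t
    have ht' : t ∈ closure ({x', u'} : Set T) := by rw [hclos]; exact mem_top t
    induction ht' using closure_induction with
    | mem t ht =>
      rcases ht with h | h
      · rw [h]
        refine ⟨hconj x' ?_, ?_⟩
        · have := hxp 1
          rwa [pow_one] at this
        · obtain ⟨m, hm⟩ := hxinv
          rw [hm]
          exact hconj _ (hxp m)
      · have h' : t = u' := h
        rw [h']
        constructor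
        · intro y hy
          rw [cj_eq_of_comm (hNc y hy u' hu'N)]
          exact hy
        · intro y hy
          rw [cj_eq_of_comm (hNc y hy u' hu'N).inv_right]
          exact hy
    | one => rw [inv_one]; exact ⟨fun y hy => by rwa [cj_one], fun y hy => by rwa [cj_one]⟩
    | mul a b _ _ ha hb =>
      constructor
      · intro y hy
        rw [← cj_cj]
        exact hb.1 _ (ha.1 y hy)
      · intro y hy
        rw [mul_inv_rev, ← cj_cj]
        exact ha.2 _ (hb.2 y hy)
    | inv a _ ha => rw [inv_inv]; exact ⟨ha.2, ha.1⟩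
  have hNn : N.Normal := by
    constructor
    intro y hy t
    have := (hall t).2 y hy
    unfold cj at this
    rwa [inv_inv] at this
  refine LF.ext N ?_ ?_
  · exact LF_of_comm (fun a b => Subtype.ext (hNc a a.2 b b.2).eq) (fin_sub (fin_sub ht T) N)
  · -- the quotient is abelian
    have hq : ∀ t : T, ∃ m : ℕ, QuotientGroup.mk' N t = QuotientGroup.mk' N x' ^ m := by
      intro t
      have ht' : t ∈ closure ({x', u'} : Set T) := by rw [hclos]; exact mem_top t
      induction ht' using closure_induction with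
      | mem t ht =>
        rcases ht with h | h
        · exact ⟨1, by rw [h, pow_one]⟩
        · have h' : t = u' := h
          refine ⟨0, ?_⟩
          rw [h', pow_zero]
          exact (QuotientGroup.eq_one_iff u').mpr hu'N
      | one => exact ⟨0, by rw [pow_zero, map_one]⟩
      | mul a b _ _ ha hb =>
        obtain ⟨m, hm⟩ := ha
        obtain ⟨k, hk⟩ := hb
        exact ⟨m + k, by rw [map_mul, hm, hk, pow_add]⟩
      | inv a _ ha =>
        obtain ⟨m, hm⟩ := ha
        obtain ⟨k, hk⟩ := hxinv
        refine ⟨k * m, ?_⟩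
        rw [map_inv, hm, ← inv_pow, ← map_inv, hk, map_pow, ← pow_mul]
    refine LF_of_comm ?_ ?_
    · intro a b
      obtain ⟨a, rfl⟩ := QuotientGroup.mk'_surjective _ a
      obtain ⟨b, rfl⟩ := QuotientGroup.mk'_surjective _ b
      obtain ⟨m, hm⟩ := hq a
      obtain ⟨k, hk⟩ := hq b
      rw [hm, hk, ← pow_add, ← pow_add, Nat.add_comm]
    · intro a
      obtain ⟨a, rfl⟩ := QuotientGroup.mk'_surjective _ a
      exact MonoidHom.isOfFinOrder (QuotientGroup.mk' N) (fin_sub ht T a)

end Pair

/-- A nilpotent group in which class-2 pairs commute is abelian. -/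
theorem comm_of_nilp {K : Type*} [Group K] (h : ∀ a w : K, C2 a w → Commute a w) (n : ℕ) :
    lc K (n + 1) = ⊥ → ∀ a b : K, Commute a b := by
  induction n with
  | zero =>
    intro h1 a b
    have h2 := cm_mem_lc_one a b
    rw [zero_add] at h1
    rw [h1, mem_bot] at h2
    exact cm_eq_one.mp h2
  | succ n ih =>
    intro h1
    apply ih
    have h2 : lc K (n + 1) ≤ center K := by
      change ⁅lc K (n + 1), (⊤ : Subgroup K)⁆ = ⊥ at h1
      rwa [commutator_top_right_eq_bot_iff_le_center] at h1
    change ⁅lc K n, (⊤ : Subgroup K)⁆ = ⊥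
    rw [commutator_top_right_eq_bot_iff_le_center]
    intro a ha
    rw [mem_center_iff]
    intro w
    have h3 := h2 (cm_mem_lc_succ ha w)
    rw [mem_center_iff] at h3
    exact ((h a w ⟨h3 a, h3 w⟩).symm).eq

section Main

variable {G : Type*} [Group G]

theorem LawL.quot (hL : LawL G) (N : Subgroup G) [N.Normal] : LawL (G ⧸ N) := by
  intro a b
  obtain ⟨a, rfl⟩ := QuotientGroup.mk'_surjective _ a
  obtain ⟨b, rfl⟩ := QuotientGroup.mk'_surjective _ b
  have h := hL a b
  have e : ∀ x y : G, cj (QuotientGroup.mk' N x) (QuotientGroup.mk' N y) =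
      QuotientGroup.mk' N (cj x y) := by
    intro x y; unfold cj; simp
  rw [← cm_map, e]
  exact h.map _

theorem odd_of_pgroup {p : ℕ} (hp : p.Prime) (hodd : p ≠ 2) (hG : IsPGroup p G) : OddG G := by
  intro g
  have := Fact.mk hp
  obtain ⟨k, hk⟩ := (IsPGroup.iff_orderOf.mp hG) g
  rw [hk]
  exact (hp.odd_of_ne_two hodd).pow

theorem fin_of_pgroup {p : ℕ} (hp : p.Prime) (hG : IsPGroup p G) (g : G) : IsOfFinOrder g := by
  obtain ⟨k, hk⟩ := hG g
  exact isOfFinOrder_iff_pow_eq_one.mpr ⟨p ^ k, pow_pos hp.pos k, hk⟩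

theorem closure_normal {X : Set G} (h : ∀ x ∈ X, ∀ g : G, cj x g ∈ X) : (closure X).Normal := by
  constructor
  intro y hy g
  have : ∀ t : G, cj y t ∈ closure X := by
    intro t
    induction hy using closure_induction with
    | mem y hy => exact subset_closure (h y hy t)
    | one => rw [one_cj]; exact one_mem _
    | mul a b _ _ ha hb => rw [cj_mul]; exact mul_mem ha hb
    | inv a _ ha => rw [cj_inv]; exact inv_mem ha
  have := this g⁻¹
  unfold cj at this
  rwa [inv_inv] at this

/-- The closure of a sandwich set is locally finite. -/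
theorem sand_LF (hG : OddG G) (hL : LawL G) (ht : ∀ g : G, IsOfFinOrder g) {X : Set G}
    (hS : Sand X) : LF (closure X) := by
  classical
  intro s
  -- finitely many elements of X suffice
  have key : ∀ g : G, g ∈ closure X → ∃ t : Finset G, (∀ b ∈ t, b ∈ X) ∧
      g ∈ closure (t : Set G) := by
    intro g hg
    induction hg using closure_induction with
    | mem x hx => exact ⟨{x}, by simpa using hx, subset_closure (by simp)⟩
    | one => exact ⟨∅, by simp, one_mem _⟩
    | mul a b _ _ ha hb =>
      obtain ⟨t, ht, ha⟩ := ha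
      obtain ⟨t', ht', hb⟩ := hb
      refine ⟨t ∪ t', ?_, mul_mem (closure_mono (by simp) ha) (closure_mono (by simp) hb)⟩
      intro c hc
      rcases Finset.mem_union.mp hc with h | h
      · exact ht c h
      · exact ht' c h
    | inv a _ ha =>
      obtain ⟨t, ht, ha⟩ := ha
      exact ⟨t, ht, inv_mem ha⟩
  have key2 : ∃ t : Finset G, (∀ b ∈ t, b ∈ X) ∧ ∀ x ∈ s, (x : G) ∈ closure (t : Set G) := by
    induction s using Finset.induction_on with
    | empty => exact ⟨∅, by simp, by simp⟩
    | insert a s _ ih =>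
      obtain ⟨t, ht, hs⟩ := ih
      obtain ⟨t', ht', ha⟩ := key a a.2
      refine ⟨t ∪ t', ?_, ?_⟩
      · intro c hc
        rcases Finset.mem_union.mp hc with h | h
        · exact ht c h
        · exact ht' c h
      · intro x hx
        rcases Finset.mem_insert.mp hx with h | h
        · rw [h]; exact closure_mono (by simp) ha
        · exact closure_mono (by simp) (hs x h)
  obtain ⟨t, htX, hst⟩ := key2
  have h1 := Sand.class_fin hG hL hS t htX
  have h2 : LF (closure (t : Set G)) := LF_of_nilp _ _ (fin_sub ht _) h1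
  let f : closure (s : Set (closure X)) →* closure (t : Set G) :=
    { toFun := fun x => ⟨((x : closure X) : G), by
        have hx := x.2
        have h3 : closure (s : Set (closure X)) ≤
            (closure (t : Set G)).comap (closure X).subtype := by
          rw [closure_le]
          intro y hy
          exact hst y (by exact_mod_cast hy)
        exact h3 hx⟩
      map_one' := rfl
      map_mul' := fun _ _ => rfl }
  have hf : Function.Injective f := by
    intro a b hab
    apply Subtype.ext
    apply Subtype.ext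
    have h := congrArg (fun z : closure (t : Set G) => (z : G)) hab
    exact h
  have h3 := h2.of_inj f hf
  have h4 : Group.FG (closure (s : Set (closure X))) := (Group.fg_iff_subgroup_fg _).2 ⟨s, rfl⟩
  exact h3.finite

/-- If there is no non-trivial locally finite normal subgroup, the group is trivial. -/
theorem trivial_of_rad {p : ℕ} (hp : p.Prime) (hodd : p ≠ 2) (hG : IsPGroup p G) (hL : LawL G)
    (hR : ∀ B : Subgroup G, B.Normal → LF B → B = ⊥) (x : G) : x = 1 := by
  have hO := odd_of_pgroup hp hodd hG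
  have ht := fin_of_pgroup hp hG
  -- class-2 pairs commute
  have hC2 : ∀ a w : G, C2 a w → Commute a w := by
    intro a w h
    set e := cm a w with he
    obtain ⟨Y, hXY, hS⟩ := exists_sand hO (X := {z | ∃ g : G, z = cj e g})
      (by
        rintro _ ⟨g, rfl⟩ t
        exact ⟨g * t, cj_cj e g t⟩)
      (by
        rintro _ ⟨s, rfl⟩ _ ⟨t, rfl⟩
        exact lemB2 hO hL h s t)
    have h1 := hR (closure Y) (closure_normal hS.cj_mem) (sand_LF hO hL ht hS)
    have h2 : e ∈ closure Y := subset_closure (hXY ⟨1, (cj_one e).symm⟩)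
    rw [h1, mem_bot] at h2
    exact cm_eq_one.mp h2
  -- conjugates commute
  have hconj : ∀ y g : G, Commute y (cj y g) := by
    intro y g
    have h1 := pair_LF hL ht y g
    have hfg : Group.FG (closure {y, cm y g} : Subgroup G) :=
      (Group.fg_iff_subgroup_fg _).2 ((Subgroup.fg_iff _).2 ⟨_, rfl, Set.toFinite _⟩)
    have hfin : Finite (closure {y, cm y g} : Subgroup G) := h1.finite
    have := Fact.mk hp
    have hnil : Group.IsNilpotent (closure {y, cm y g} : Subgroup G) :=
      (hG.to_subgroup _).isNilpotent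
    obtain ⟨n, hn⟩ := (Subgroup.nilpotent_iff_lowerCentralSeries).mp hnil
    have hn' : lc (closure {y, cm y g} : Subgroup G) (n + 1) = ⊥ := by
      have h2 := lc_anti (G := (closure {y, cm y g} : Subgroup G)) (Nat.le_succ n)
      rw [show lc (closure {y, cm y g} : Subgroup G) n = ⊥ from hn] at h2
      exact le_bot_iff.mp h2
    have hcomm := comm_of_nilp (K := (closure {y, cm y g} : Subgroup G)) (by
      intro a w h
      have h3 : C2 (a : G) (w : G) := by
        have e : ((cm a w : (closure {y, cm y g} : Subgroup G)) : G) = cm (a : G) (w : G) :=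
          cm_map (closure {y, cm y g}).subtype a w
        constructor
        · rw [← e]
          exact h.1.map (closure {y, cm y g}).subtype
        · rw [← e]
          exact h.2.map (closure {y, cm y g}).subtype
      have h4 := hC2 _ _ h3
      exact Subtype.ext h4.eq) n hn'
    have h5 := hcomm ⟨y, subset_closure (by simp)⟩ ⟨cm y g, subset_closure (by simp)⟩
    have h6 : Commute y (cm y g) := h5.map (closure {y, cm y g}).subtype
    rw [cj_eq]
    exact (Commute.refl y).mul_right h6
  -- the normal closure of x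
  have h1 := hR (closure {z | ∃ g : G, z = cj x g}) (closure_normal (by
      rintro _ ⟨g, rfl⟩ t
      exact ⟨g * t, cj_cj x g t⟩)) (by
    refine LF_of_comm ?_ (fin_sub ht _)
    have hc : ∀ a ∈ closure {z | ∃ g : G, z = cj x g}, ∀ b ∈ closure {z | ∃ g : G, z = cj x g},
        Commute a b := by
      intro a ha b hb
      refine comm_closure (fun b hb => ?_) hb
      refine (comm_closure (fun a ha => ?_) ha).symm
      obtain ⟨s, rfl⟩ := ha
      obtain ⟨t, rfl⟩ := hb
      have := comm_cj (hconj x (s * t⁻¹)) t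
      rwa [cj_cj, mul_assoc, inv_mul_cancel, mul_one] at this
    intro a b
    exact Subtype.ext (hc a a.2 b b.2).eq)
  have h2 : x ∈ closure {z | ∃ g : G, z = cj x g} := subset_closure ⟨1, (cj_one x).symm⟩
  rw [h1, mem_bot] at h2
  exact h2

/-- The theorem. -/
theorem main_LF {p : ℕ} (hp : p.Prime) (hodd : p ≠ 2) (hG : IsPGroup p G) (hL : LawL G) :
    LF G := by
  have h1 : ∀ x : G ⧸ rad G, x = 1 :=
    trivial_of_rad hp hodd (hG.to_quotient (rad G)) (hL.quot (rad G)) (rad_quot G)
  have h2 : rad G = ⊤ := by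
    rw [eq_top_iff]
    intro x _
    exact (QuotientGroup.eq_one_iff x).mp (h1 x)
  have h3 := rad_LF G
  rw [h2] at h3
  exact h3.of_inj (Subgroup.topEquiv (G := G)).symm.toMonoidHom
    (Subgroup.topEquiv (G := G)).symm.injective

end Main

end Pool.Agent.H76.MB
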