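import Pool.Agent.H76.MB.Lcs

/-!
# MB.LF: locally finite groups
-/

set_option autoImplicit false

namespace Pool.Agent.H76.MB

open Subgroup
open scoped commutatorElement

/-- locally finite -/
def LF (G : Type*) [Group G] : Prop := ∀ s : Finset G, Finite (closure (s : Set G))

theorem LF.fin_of_fg {G : Type*} [Group G] (h : LF G) (H : Subgroup G) (hH : H.FG) :
    Finite H := by
  obtain ⟨s, rfl⟩ := hH
  exact h s

theorem LF.finite {G : Type*} [Group G] (h : LF G) [hG : Group.FG G] : Finite G := by
  have h1 : (⊤ : Subgroup G).FG := Group.fg_def.mp hG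
  have h2 : Finite (⊤ : Subgroup G) := h.fin_of_fg ⊤ h1
  exact Finite.of_equiv _ (Subgroup.topEquiv (G := G)).toEquiv

theorem LF_of_fg {G : Type*} [Group G] (h : ∀ H : Subgroup G, H.FG → Finite H) : LF G :=
  fun s => h _ ⟨s, rfl⟩

theorem LF.of_surj {G H : Type*} [Group G] [Group H] (h : LF G) (f : G →* H)
    (hf : Function.Surjective f) : LF H := by
  classical
  intro s
  obtain ⟨t, ht⟩ : ∃ t : Finset G, t.image f = s := by
    obtain ⟨g, hg⟩ := hf.hasRightInverse
    refine ⟨s.image g, ?_⟩
    rw [Finset.image_image]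
    conv_rhs => rw [← Finset.image_id (s := s)]
    apply Finset.image_congr
    intro x _
    exact hg x
  have h1 : closure (s : Set H) = (closure (t : Set G)).map f := by
    rw [MonoidHom.map_closure, ← ht, Finset.coe_image]
  rw [h1]
  have := h t
  exact Finite.of_surjective _ (MonoidHom.subgroupMap_surjective f (closure (t : Set G)))

theorem LF.of_inj {G H : Type*} [Group G] [Group H] (h : LF H) (f : G →* H)
    (hf : Function.Injective f) : LF G := by
  classical
  intro s
  have h1 : (closure (s : Set G)).map f = closure ((s.image f : Finset H) : Set H) := by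
    rw [MonoidHom.map_closure, Finset.coe_image]
  have h2 := h (s.image f)
  rw [← h1] at h2
  exact Finite.of_injective (f.subgroupMap (closure (s : Set G)))
    (fun a b hab => by
      apply Subtype.ext
      apply hf
      exact congrArg Subtype.val hab)

theorem LF.subgroup {G : Type*} [Group G] (h : LF G) (H : Subgroup G) : LF H :=
  h.of_inj H.subtype H.subtype_injective

theorem LF.mono {G : Type*} [Group G] {H K : Subgroup G} (h : LF K) (hHK : H ≤ K) : LF H :=
  h.of_inj (Subgroup.inclusion hHK) (Subgroup.inclusion_injective hHK)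

/-- LF-by-LF is LF. -/
theorem LF.ext {G : Type*} [Group G] (N : Subgroup G) [N.Normal] (h1 : LF N)
    (h2 : LF (G ⧸ N)) : LF G := by
  classical
  intro s
  set F := closure (s : Set G) with hF
  have hFG : Group.FG F := (Group.fg_iff_subgroup_fg F).2 ⟨s, rfl⟩
  set M := N.subgroupOf F with hM
  have hMn : M.Normal := by rw [hM]; infer_instance
  -- F / M is finite
  have h3 : Finite (F ⧸ M) := by
    have h4 : Finite (F.map (QuotientGroup.mk' N)) := by
      apply h2.fin_of_fg
      refine ⟨s.image (QuotientGroup.mk' N), ?_⟩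
      rw [Finset.coe_image, hF, MonoidHom.map_closure]
    let f : F →* G ⧸ N := (QuotientGroup.mk' N).comp F.subtype
    have hker : f.ker = M := by
      ext x
      rw [MonoidHom.mem_ker, hM, mem_subgroupOf]
      exact QuotientGroup.eq_one_iff (x : G)
    have hr : Finite f.range := by
      have : f.range = F.map (QuotientGroup.mk' N) := by
        rw [MonoidHom.range_comp, Subgroup.range_subtype]
      rw [this]; exact h4
    have e := QuotientGroup.quotientKerEquivRange f
    have h5 : Finite (F ⧸ f.ker) := Finite.of_equiv _ e.symm.toEquiv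
    rw [hker] at h5
    exact h5
  have h4 : M.FiniteIndex := Subgroup.finiteIndex_of_finite_quotient
  have h5 : Group.FG M := Subgroup.fg_of_index_ne_zero M
  have h6 : LF M := by
    let f : M →* N :=
      { toFun := fun x => ⟨((x : F) : G), x.2⟩
        map_one' := rfl
        map_mul' := fun _ _ => rfl }
    refine h1.of_inj f ?_
    intro a b hab
    apply Subtype.ext
    apply Subtype.ext
    have h := congrArg (fun z : N => (z : G)) hab
    exact h
  have h7 : Finite M := h6.finite
  exact Finite.of_subgroup_quotient M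

theorem LF_of_comm {G : Type*} [Group G] (h : ∀ a b : G, a * b = b * a)
    (ht : ∀ g : G, IsOfFinOrder g) : LF G := by
  intro s
  let _ : CommGroup (closure (s : Set G)) :=
    { (inferInstance : Group (closure (s : Set G))) with
      mul_comm := fun x y => Subtype.ext (h x y) }
  have hfg : Group.FG (closure (s : Set G)) :=
    (Group.fg_iff_subgroup_fg _).2 ⟨s, rfl⟩
  refine CommGroup.finite_of_fg_isMulTorsion _ ?_
  intro x
  have h1 := ht (x : G)
  rw [isOfFinOrder_iff_pow_eq_one] at h1 ⊢
  obtain ⟨n, hn, h2⟩ := h1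
  exact ⟨n, hn, Subtype.ext h2⟩

theorem fin_sub {G : Type*} [Group G] (ht : ∀ g : G, IsOfFinOrder g) (H : Subgroup G) (g : H) :
    IsOfFinOrder g := by
  have h1 := ht (g : G)
  rw [isOfFinOrder_iff_pow_eq_one] at h1 ⊢
  obtain ⟨n, hn, h2⟩ := h1
  exact ⟨n, hn, Subtype.ext h2⟩

theorem LF_of_nilp (n : ℕ) : ∀ (G : Type*) [Group G], (∀ g : G, IsOfFinOrder g) →
    lc G n = ⊥ → LF G := by
  induction n with
  | zero =>
    intro G _ ht h
    apply LF_of_comm _ ht
    intro a b
    have h1 : ∀ g : G, g = 1 := by
      intro g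
      have : g ∈ (⊤ : Subgroup G) := mem_top g
      have h' : (⊤ : Subgroup G) = ⊥ := h
      rw [h', mem_bot] at this
      exact this
    rw [h1 a, h1 b]
  | succ n ih =>
    intro G _ ht h
    have hn := lc_normal G n
    have hc : lc G n ≤ center G := by
      change ⁅lc G n, (⊤ : Subgroup G)⁆ = ⊥ at h
      rwa [commutator_top_right_eq_bot_iff_le_center] at h
    refine LF.ext (lc G n) ?_ ?_
    · refine LF_of_comm ?_ (fin_sub ht _)
      intro a b
      exact Subtype.ext ((mem_center_iff.mp (hc b.2)) a)
    · refine ih (G ⧸ lc G n) ?_ ?_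
      · intro g
        obtain ⟨g, rfl⟩ := QuotientGroup.mk'_surjective _ g
        exact MonoidHom.isOfFinOrder (QuotientGroup.mk' (lc G n)) (ht g)
      · rw [← lc_map _ (QuotientGroup.mk'_surjective (lc G n))]
        exact QuotientGroup.map_mk'_self (lc G n)

theorem LF.sup {G : Type*} [Group G] {A B : Subgroup G} [A.Normal] [B.Normal] (hA : LF A)
    (hB : LF B) : LF (B ⊔ A : Subgroup G) := by
  have hn : (A.subgroupOf (B ⊔ A)).Normal := inferInstance
  refine LF.ext (A.subgroupOf (B ⊔ A)) ?_ ?_
  · have e := Subgroup.subgroupOfEquivOfLe (le_sup_right : A ≤ B ⊔ A)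
    exact hA.of_inj e.toMonoidHom e.injective
  · have e := QuotientGroup.quotientInfEquivProdNormalQuotient B A
    have h1 : LF (B ⧸ A.subgroupOf B) :=
      hB.of_surj (QuotientGroup.mk' _) (QuotientGroup.mk'_surjective _)
    exact h1.of_surj e.toMonoidHom e.surjective

/-- the locally finite radical -/
def rad (G : Type*) [Group G] : Subgroup G := sSup {N : Subgroup G | N.Normal ∧ LF N}

theorem rad_dir (G : Type*) [Group G] :
    DirectedOn (· ≤ ·) {N : Subgroup G | N.Normal ∧ LF N} := by
  rintro A ⟨hA, hA'⟩ B ⟨hB, hB'⟩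
  refine ⟨B ⊔ A, ⟨inferInstance, LF.sup hA' hB'⟩, le_sup_right, le_sup_left⟩

theorem rad_nonempty (G : Type*) [Group G] :
    {N : Subgroup G | N.Normal ∧ LF N}.Nonempty := by
  refine ⟨⊥, inferInstance, ?_⟩
  intro s
  have : Finite (⊥ : Subgroup G) := inferInstance
  infer_instance

theorem mem_rad {G : Type*} [Group G] {g : G} :
    g ∈ rad G ↔ ∃ N : Subgroup G, (N.Normal ∧ LF N) ∧ g ∈ N := by
  unfold rad
  rw [Subgroup.mem_sSup_of_directedOn (rad_nonempty G) (rad_dir G)]
  rfl

instance rad_normal (G : Type*) [Group G] : (rad G).Normal := by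
  constructor
  intro n hn g
  rw [mem_rad] at hn ⊢
  obtain ⟨N, ⟨h1, h2⟩, h3⟩ := hn
  exact ⟨N, ⟨h1, h2⟩, h1.conj_mem n h3 g⟩

theorem rad_LF (G : Type*) [Group G] : LF (rad G) := by
  classical
  intro s
  -- one N contains all elements of s
  obtain ⟨N, ⟨hN, hN'⟩, hs⟩ : ∃ N : Subgroup G, (N.Normal ∧ LF N) ∧
      ∀ x ∈ s, (x : G) ∈ N := by
    induction s using Finset.induction_on with
    | empty =>
      obtain ⟨N, hN⟩ := rad_nonempty G
      exact ⟨N, hN, by simp⟩
    | insert a s _ ih =>
      obtain ⟨N, hN, hs⟩ := ih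
      obtain ⟨M, hM, ha⟩ := mem_rad.mp a.2
      obtain ⟨L, hL, h1, h2⟩ := rad_dir G N hN M hM
      refine ⟨L, hL, ?_⟩
      intro x hx
      rcases Finset.mem_insert.mp hx with h | h
      · rw [h]; exact h2 ha
      · exact h1 (hs x h)
  have h1 : closure (s : Set (rad G)) ≤ N.subgroupOf (rad G) := by
    rw [closure_le]
    intro x hx
    exact hs x (by exact_mod_cast hx)
  have h2 : LF (N.subgroupOf (rad G)) := by
    let f : N.subgroupOf (rad G) →* N :=
      { toFun := fun x => ⟨((x : rad G) : G), x.2⟩
        map_one' := rfl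
        map_mul' := fun _ _ => rfl }
    refine hN'.of_inj f ?_
    intro a b hab
    apply Subtype.ext
    apply Subtype.ext
    have h := congrArg (fun z : N => (z : G)) hab
    exact h
  have h3 : LF (closure (s : Set (rad G))) := h2.mono h1
  have h4 : Group.FG (closure (s : Set (rad G))) := (Group.fg_iff_subgroup_fg _).2 ⟨s, rfl⟩
  exact h3.finite

/-- the quotient by the radical has no non-trivial locally finite normal subgroup -/
theorem rad_quot (G : Type*) [Group G] (B : Subgroup (G ⧸ rad G)) (hB : B.Normal)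
    (hB' : LF B) : B = ⊥ := by
  have hn := rad_normal G
  set π := QuotientGroup.mk' (rad G) with hπ
  have hle : rad G ≤ B.comap π := by
    intro x hx
    rw [mem_comap]
    have : π x = 1 := (QuotientGroup.eq_one_iff x).mpr hx
    rw [this]; exact one_mem B
  have hC : (B.comap π).Normal := hB.comap π
  have hCLF : LF (B.comap π) := by
    let f : (B.comap π) →* B :=
      { toFun := fun x => ⟨π x, x.2⟩
        map_one' := Subtype.ext (map_one π)
        map_mul' := fun a b => Subtype.ext (map_mul π _ _) }
    have hker : f.ker = (rad G).subgroupOf (B.comap π) := by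
      ext x
      rw [MonoidHom.mem_ker, mem_subgroupOf]
      constructor
      · intro h
        exact (QuotientGroup.eq_one_iff (x : G)).mp (congrArg Subtype.val h)
      · intro h
        exact Subtype.ext ((QuotientGroup.eq_one_iff (x : G)).mpr h)
    refine LF.ext f.ker ?_ ?_
    · rw [hker]
      have e := Subgroup.subgroupOfEquivOfLe hle
      exact (rad_LF G).of_inj e.toMonoidHom e.injective
    · exact hB'.of_inj (QuotientGroup.kerLift f) (QuotientGroup.kerLift_injective f)
  have h1 : B.comap π ≤ rad G := by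
    intro x hx
    rw [mem_rad]
    exact ⟨_, ⟨hC, hCLF⟩, hx⟩
  rw [eq_bot_iff]
  intro y hy
  obtain ⟨x, rfl⟩ := QuotientGroup.mk'_surjective _ y
  exact (QuotientGroup.eq_one_iff x).mpr (h1 hy)

end Pool.Agent.H76.MB
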