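import Pool.Agent.H76.MB.Polar

/-!
# MB.ALLQ: `Q(n)` for all `n`
-/

set_option autoImplicit false

namespace Pool.Agent.H76.MB

open Subgroup

variable {G : Type*} [Group G]

namespace Sand

variable {X : Set G}

theorem itc_inv (hS : Sand X) {l : List G} (hl : ∀ b ∈ l, b ∈ X) :
    ∀ {u : G}, u ∈ X → itc u⁻¹ l = (itc u l)⁻¹ := by
  induction l with
  | nil => intro u _; rfl
  | cons b l ih =>
    intro u hu
    have hb : b ∈ X := hl b (by simp)
    rw [itc_cons, itc_cons, cm_inv_left hS hu hb,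
      ih (fun c hc => hl c (by simp [hc])) (hS.cm_mem u hu b hb)]

/-- A repeated letter at the first place. -/
theorem rep_first {M : ℕ} (hQ : ∀ m ≤ M, Q X m) {a : G} (ha : a ∈ X) {q : List G}
    (hq : ∀ b ∈ q, b ∈ X) (hlen : q.length ≤ M) : itc a (q ++ [a]) = 1 := by
  rw [itc_snoc, ← cm_inv]
  have := hQ q.length hlen a ha q hq rfl
  unfold gam at this
  rw [this, inv_one]

/-- A repeated letter at a later place. -/
theorem rep_later (hS : Sand X) {M : ℕ} (hQ : ∀ m ≤ M, Q X m) {x a : G} (hx : x ∈ X)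
    (ha : a ∈ X) {p q : List G} (hp : ∀ b ∈ p, b ∈ X) (hq : ∀ b ∈ q, b ∈ X)
    (hlen : q.length + 1 ≤ M) : itc x (p ++ a :: (q ++ [a])) = 1 := by
  have hm : itc x p ∈ X := hS.itc_mem hx hp
  have hma : cm a (itc x p) ∈ X := hS.cm_mem a ha _ hm
  rw [itc_append, itc_cons, ← cm_inv, itc_inv hS (by
    intro b hb
    rcases List.mem_append.mp hb with h | h
    · exact hq b h
    · rw [List.mem_singleton.mp h]; exact ha) hma, itc_snoc, ← cm_inv]
  have := hQ (itc x p :: q).length (by simpa using hlen) a ha (itc x p :: q) (by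
    intro b hb
    rcases List.mem_cons.mp hb with h | h
    · rw [h]; exact hm
    · exact hq b h) rfl
  unfold gam at this
  rw [itc_cons] at this
  rw [this, inv_one, inv_one]

/-- Left-normed commutators with a repeated letter vanish. -/
theorem rep (hS : Sand X) {M : ℕ} (hQ : ∀ m ≤ M, Q X m) {x : G} {l : List G} (hx : x ∈ X)
    (hl : ∀ b ∈ l, b ∈ X) (hlen : l.length ≤ M + 1) (hdup : ¬ (x :: l).Nodup) :
    itc x l = 1 := by
  rw [List.nodup_cons] at hdup
  by_cases hxl : x ∈ l
  · obtain ⟨q, r, rfl⟩ := List.append_of_mem hxl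
    have h1 : q ++ x :: r = (q ++ [x]) ++ r := by simp
    rw [h1, itc_append, rep_first hQ hx (fun b hb => hl b (by simp [hb]))
      (by simp at hlen; omega), one_itc]
  · have h2 : ¬ l.Nodup := fun h => hdup ⟨hxl, h⟩
    -- decompose l
    have hex : ∀ l : List G, ¬ l.Nodup → ∃ a p q r, l = p ++ a :: (q ++ a :: r) := by
      intro l
      induction l with
      | nil => intro h; exact absurd List.nodup_nil h
      | cons b l ih =>
        intro h
        rw [List.nodup_cons] at h
        by_cases hb : b ∈ l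
        · obtain ⟨q, r, rfl⟩ := List.append_of_mem hb
          exact ⟨b, [], q, r, rfl⟩
        · obtain ⟨a, p, q, r, rfl⟩ := ih (fun h' => h ⟨hb, h'⟩)
          exact ⟨a, b :: p, q, r, rfl⟩
    obtain ⟨a, p, q, r, rfl⟩ := hex l h2
    have h3 : p ++ a :: (q ++ a :: r) = (p ++ a :: (q ++ [a])) ++ r := by simp
    rw [h3, itc_append, rep_later hS hQ hx (hl a (by simp)) (fun b hb => hl b (by simp [hb]))
      (fun b hb => hl b (by simp [hb])) (by simp at hlen; omega), one_itc]

/-- `r ≤ M + 1` elements generate a group of class at most `r`. -/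
theorem class_of_Q (hS : Sand X) {M : ℕ} (hQ : ∀ m ≤ M, Q X m) (s : Finset G)
    (hs : ∀ b ∈ s, b ∈ X) (hcard : s.card ≤ M + 1) :
    lc (closure (s : Set G)) s.card = ⊥ := by
  apply lc_closure
  intro x hx l hl hlen
  have hx' : x ∈ s := by exact_mod_cast hx
  refine rep hS hQ (hs x hx') (fun b hb => hs b (by exact_mod_cast hl b hb))
    (by rw [hlen]; exact hcard) ?_
  intro hnd
  classical
  have h1 : (x :: l).toFinset ⊆ s := by
    intro b hb
    rw [List.mem_toFinset] at hb
    rcases List.mem_cons.mp hb with h | h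
    · rw [h]; exact hx'
    · exact_mod_cast hl b h
  have h2 := Finset.card_le_card h1
  rw [List.toFinset_card_of_nodup hnd, List.length_cons, hlen] at h2
  omega

/-- `gam a [b, c, d]` commutes with `a`, `b`, `c`, `d`. -/
theorem gam3_comm (hG : OddG G) (hS : Sand X) (hQ : ∀ m < 3, Q X m) {a b c d : G} (ha : a ∈ X)
    (hb : b ∈ X) (hc : c ∈ X) (hd : d ∈ X) :
    Commute (gam a [b, c, d]) a ∧ Commute (gam a [b, c, d]) b ∧
      Commute (gam a [b, c, d]) c ∧ Commute (gam a [b, c, d]) d := by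
  have key : ∀ b c d : G, b ∈ X → c ∈ X → d ∈ X →
      Commute (gam a [b, c, d]) a ∧ Commute (gam a [b, c, d]) d := by
    intro b c d hb hc hd
    have h1 := rel hG hS 3 hQ a ha [b, c] [d] (by simp [hb, hc]) (by simp [hd]) rfl
    have h2 : gam a [b, c, d] = cm (itc a [b, c]) (cm a d) := by
      have h3 : ([b, c] ++ [d] : List G) = [b, c, d] := rfl
      rw [h3] at h1
      have h4 : ((-1 : ℤ) ^ ([b, c] : List G).length) = 1 := by norm_num
      rw [h4, zpow_one] at h1
      rw [← h1]
      rfl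
    have hm : itc a [b, c] ∈ X := hS.itc_mem ha (by simp [hb, hc])
    rw [h2, ← cm_inv]
    exact ⟨(f2 hG hS ha hd hm).symm.inv_left, (f2' hG hS ha hd hm).symm.inv_left⟩
  have hQ2 := hQ 2 (by omega)
  have p1 : gam a [b, c, d] = gam a [d, c, b] := by
    refine gam_perm' hG hS hQ2 ha ?_ (by simp [hb, hc, hd]) rfl
    have h1 : ([b, c, d] : List G).Perm [b, d, c] := List.Perm.cons b (List.Perm.swap d c [])
    have h2 : ([b, d, c] : List G).Perm [d, b, c] := List.Perm.swap d b [c]
    have h3 : ([d, b, c] : List G).Perm [d, c, b] := List.Perm.cons d (List.Perm.swap c b [])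
    exact (h1.trans h2).trans h3
  have p2 : gam a [b, c, d] = gam a [b, d, c] :=
    gam_perm' hG hS hQ2 ha (List.Perm.cons b (List.Perm.swap d c [])) (by simp [hb, hc, hd]) rfl
  refine ⟨(key b c d hb hc hd).1, ?_, ?_, (key b c d hb hc hd).2⟩
  · rw [p1]; exact (key d c b hd hc hb).2
  · rw [p2]; exact (key b d c hb hd hc).2

/-- Four elements generate a group of class at most five if `Q(0), Q(1), Q(2)`. -/
theorem class_four (hG : OddG G) (hS : Sand X) (hQ : ∀ m < 3, Q X m) (s : Finset G)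
    (hs : ∀ b ∈ s, b ∈ X) (hcard : s.card ≤ 4) :
    lc (closure (s : Set G)) 5 = ⊥ := by
  classical
  apply lc_closure
  intro x hx l hl hlen
  have hx' : x ∈ s := by exact_mod_cast hx
  have hl' : ∀ b ∈ l, b ∈ s := fun b hb => by exact_mod_cast hl b hb
  obtain ⟨y2, y3, y4, y5, y6, rfl⟩ : ∃ y2 y3 y4 y5 y6 : G, l = [y2, y3, y4, y5, y6] := by
    rcases l with _ | ⟨y2, _ | ⟨y3, _ | ⟨y4, _ | ⟨y5, _ | ⟨y6, _ | ⟨y7, l⟩⟩⟩⟩⟩⟩ <;>
      simp at hlen
    exact ⟨y2, y3, y4, y5, y6, rfl⟩
  have m2 : y2 ∈ s := hl' y2 (by simp)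
  have m3 : y3 ∈ s := hl' y3 (by simp)
  have m4 : y4 ∈ s := hl' y4 (by simp)
  have m5 : y5 ∈ s := hl' y5 (by simp)
  have m6 : y6 ∈ s := hl' y6 (by simp)
  have X1 := hs x hx'
  have X2 := hs y2 m2
  have X3 := hs y3 m3
  have X4 := hs y4 m4
  have X5 := hs y5 m5
  have X6 := hs y6 m6
  by_cases hnd : ([x, y2, y3, y4] : List G).Nodup
  · -- the four letters exhaust s
    have hsub : ([x, y2, y3, y4] : List G).toFinset ⊆ s := by
      intro b hb
      rw [List.mem_toFinset] at hb
      simp only [List.mem_cons, List.not_mem_nil, or_false] at hb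
      rcases hb with rfl | rfl | rfl | rfl
      · exact hx'
      · exact m2
      · exact m3
      · exact m4
    have heq : ([x, y2, y3, y4] : List G).toFinset = s := by
      apply Finset.eq_of_subset_of_card_le hsub
      rw [List.toFinset_card_of_nodup hnd]
      exact hcard
    have hall : ∀ b ∈ s, b = x ∨ b = y2 ∨ b = y3 ∨ b = y4 := by
      intro b hb
      rw [← heq, List.mem_toFinset] at hb
      simpa using hb
    have fin : ∀ g : G, itc x [y2, y3, y4, y5] = g ∨ itc x [y2, y3, y4, y5] = g⁻¹ →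
        (Commute g x ∧ Commute g y2 ∧ Commute g y3 ∧ Commute g y4) →
        itc x [y2, y3, y4, y5, y6] = 1 := by
      intro g hg ⟨c1, c2, c3, c4⟩
      have e : ([y2, y3, y4, y5, y6] : List G) = [y2, y3, y4, y5] ++ [y6] := rfl
      rw [e, itc_snoc]
      apply cm_eq_one.mpr
      have c6 : Commute g y6 := by
        rcases hall y6 m6 with h | h | h | h
        · rw [h]; exact c1
        · rw [h]; exact c2
        · rw [h]; exact c3
        · rw [h]; exact c4
      rcases hg with h | h
      · rw [h]; exact c6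
      · rw [h]; exact c6.inv_left
    rcases hall y5 m5 with h | h | h | h
    · -- y5 = x
      obtain ⟨c1, c2, c3, c4⟩ := gam3_comm hG hS hQ X1 X2 X3 X4
      refine fin (gam x [y2, y3, y4]) (Or.inr ?_) ⟨c1, c2, c3, c4⟩
      have e : ([y2, y3, y4, y5] : List G) = [y2, y3, y4] ++ [x] := by rw [h]; rfl
      rw [e, itc_snoc, ← cm_inv]
      rfl
    · -- y5 = y2
      obtain ⟨c1, c2, c3, c4⟩ := gam3_comm hG hS hQ X2 X1 X3 X4
      refine fin (gam y2 [x, y3, y4]) (Or.inl ?_) ⟨c2, c1, c3, c4⟩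
      rw [h]
      have e1 : itc x [y2, y3, y4, y2] = itc (cm y2 x)⁻¹ [y3, y4, y2] := by
        rw [itc_cons, cm_inv]
      rw [e1, itc_inv hS (by simp [X2, X3, X4]) (hS.cm_mem y2 X2 x X1)]
      have e2 : ([y3, y4, y2] : List G) = [y3, y4] ++ [y2] := rfl
      rw [e2, itc_snoc, cm_inv]
      rfl
    · -- y5 = y3
      have h1 : itc x [y2, y3, y4, y5] = 1 := by
        rw [h]
        have e1 : itc x [y2, y3, y4, y3] = itc (cm y3 (cm x y2))⁻¹ [y4, y3] := by
          rw [itc_cons, itc_cons, cm_inv]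
        have hm := hS.cm_mem x X1 y2 X2
        rw [e1, itc_inv hS (by simp [X3, X4]) (hS.cm_mem y3 X3 _ hm)]
        have e2 : ([y4, y3] : List G) = [y4] ++ [y3] := rfl
        rw [e2, itc_snoc, cm_inv]
        have := hQ 2 (by omega) y3 X3 [cm x y2, y4] (by simp [hm, X4]) rfl
        exact this
      refine fin 1 (Or.inl h1) ?_
      exact ⟨Commute.one_left _, Commute.one_left _, Commute.one_left _, Commute.one_left _⟩
    · -- y5 = y4
      have h1 : itc x [y2, y3, y4, y5] = 1 := by
        rw [h]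
        have hm : itc x [y2, y3] ∈ X := hS.itc_mem X1 (by simp [X2, X3])
        have e2 : itc x [y2, y3, y4, y4] = cm (cm (itc x [y2, y3]) y4) y4 := rfl
        rw [e2]
        apply cm_eq_one.mpr
        exact (hS.c2 _ hm y4 X4).2.symm
      refine fin 1 (Or.inl h1) ?_
      exact ⟨Commute.one_left _, Commute.one_left _, Commute.one_left _, Commute.one_left _⟩
  · have h1 : itc x [y2, y3, y4] = 1 :=
      rep hS (M := 2) (fun m hm => hQ m (by omega)) X1 (by simp [X2, X3, X4]) (by simp) hnd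
    have e : ([y2, y3, y4, y5, y6] : List G) = [y2, y3, y4] ++ [y5, y6] := rfl
    rw [e, itc_append, h1, one_itc]

end Sand

end Pool.Agent.H76.MB
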