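import Mathlib

/-!
# MB, definitions and elementary facts on groups whose elements have odd order
-/

set_option autoImplicit false

namespace Pool.Agent.H76.MB

variable {G : Type*} [Group G]

/-- `x ^ y = y⁻¹ x y`. -/
def cj (x y : G) : G := y⁻¹ * x * y

/-- `[x, y] = x⁻¹ y⁻¹ x y`. -/
def cm (x y : G) : G := x⁻¹ * y⁻¹ * x * y

/-- `(x, y)` is a class-2 pair. -/
def C2 (x y : G) : Prop := Commute x (cm x y) ∧ Commute y (cm x y)

/-- The law `[x, y]` commutes with `[x, y] ^ x`. -/
def LawL (G : Type*) [Group G] : Prop := ∀ x y : G, Commute (cm x y) (cj (cm x y) x)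

/-- All elements have odd order. -/
def OddG (G : Type*) [Group G] : Prop := ∀ g : G, Odd (orderOf g)

theorem comm_of_sq (hG : OddG G) {t g : G} (h : Commute t (g ^ 2)) : Commute t g := by
  obtain ⟨m, hm⟩ := hG g
  have h1 : g = (g ^ 2) ^ (m + 1) := by
    rw [← pow_mul]
    have : 2 * (m + 1) = orderOf g + 1 := by omega
    rw [this, pow_succ, pow_orderOf_eq_one, one_mul]
  rw [h1]
  exact h.pow_right _

theorem comm_of_sq_left (hG : OddG G) {t g : G} (h : Commute (t ^ 2) g) : Commute t g :=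
  (comm_of_sq hG h.symm).symm

theorem eq_one_of_sq (hG : OddG G) {g : G} (h : g ^ 2 = 1) : g = 1 := by
  obtain ⟨m, hm⟩ := hG g
  have h1 : g = (g ^ 2) ^ (m + 1) := by
    rw [← pow_mul]
    have : 2 * (m + 1) = orderOf g + 1 := by omega
    rw [this, pow_succ, pow_orderOf_eq_one, one_mul]
  rw [h1, h, one_pow]

theorem eq_one_of_four (hG : OddG G) {g : G} (h : g ^ 4 = 1) : g = 1 := by
  apply eq_one_of_sq hG
  apply eq_one_of_sq hG
  rw [← pow_mul]
  exact h

theorem eq_one_of_cj_inv (hG : OddG G) {x t : G} (h : cj x t = x⁻¹) : x = 1 := by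
  unfold cj at h
  have h1 : t⁻¹ * x * t = x⁻¹ := h
  have h2 : x * t = t * x⁻¹ := by
    rw [← h1]; group
  have h3 : x⁻¹ * t = t * x := by
    have h4 : (t⁻¹ * x * t)⁻¹ = x := by rw [h1, inv_inv]
    have h5 : t⁻¹ * x⁻¹ * t = x := by
      calc t⁻¹ * x⁻¹ * t = (t⁻¹ * x * t)⁻¹ := by group
        _ = x := h4
    calc x⁻¹ * t = t * (t⁻¹ * x⁻¹ * t) := by group
      _ = t * x := by rw [h5]
  have h6 : Commute x (t ^ 2) := by
    change x * t ^ 2 = t ^ 2 * x
    calc x * t ^ 2 = (x * t) * t := by rw [pow_two, mul_assoc]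
      _ = t * (x⁻¹ * t) := by rw [h2, mul_assoc]
      _ = t ^ 2 * x := by rw [h3, pow_two, mul_assoc]
  have h7 : Commute x t := comm_of_sq hG h6
  have h8 : x⁻¹ = x := by
    rw [← h1, mul_assoc, h7.eq]; group
  apply eq_one_of_sq hG
  rw [pow_two]
  nth_rewrite 1 [← h8]
  exact inv_mul_cancel x

theorem cj_mul (x y t : G) : cj (x * y) t = cj x t * cj y t := by unfold cj; group

theorem cj_inv (x t : G) : cj x⁻¹ t = (cj x t)⁻¹ := by unfold cj; group

theorem cj_cj (x s t : G) : cj (cj x s) t = cj x (s * t) := by unfold cj; group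

theorem cj_one (x : G) : cj x 1 = x := by unfold cj; group

theorem one_cj (t : G) : cj 1 t = 1 := by unfold cj; group

theorem cj_pow (x t : G) (n : ℕ) : cj (x ^ n) t = (cj x t) ^ n := by
  induction n with
  | zero => simp [one_cj]
  | succ n ih => rw [pow_succ, pow_succ, cj_mul, ih]

theorem cj_eq_of_comm {x t : G} (h : Commute x t) : cj x t = x := by
  unfold cj
  rw [mul_assoc, h.eq]; group

theorem comm_of_cj_eq {x t : G} (h : cj x t = x) : Commute x t := by
  unfold cj at h
  change x * t = t * x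
  nth_rewrite 2 [← h]
  group

theorem comm_cj {x y : G} (h : Commute x y) (t : G) : Commute (cj x t) (cj y t) := by
  change cj x t * cj y t = cj y t * cj x t
  rw [← cj_mul, ← cj_mul, h.eq]

theorem comm_of_comm_cj {x y t : G} (h : Commute (cj x t) (cj y t)) : Commute x y := by
  have := comm_cj h t⁻¹
  rwa [cj_cj, cj_cj, mul_inv_cancel, cj_one, cj_one] at this

theorem cm_eq (x y : G) : cm x y = x⁻¹ * cj x y := by unfold cm cj; group

theorem cj_eq (x y : G) : cj x y = x * cm x y := by unfold cm cj; group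

theorem cm_inv (x y : G) : (cm x y)⁻¹ = cm y x := by unfold cm; group

theorem cm_eq_one {x y : G} : cm x y = 1 ↔ Commute x y := by
  constructor
  · intro h
    apply comm_of_cj_eq
    rw [cj_eq, h, mul_one]
  · intro h
    rw [cm_eq, cj_eq_of_comm h, inv_mul_cancel]

theorem cj_cm (x y t : G) : cj (cm x y) t = cm (cj x t) (cj y t) := by unfold cm cj; group

theorem cm_mul_left (x y z : G) : cm (x * y) z = cj (cm x z) y * cm y z := by
  unfold cm cj; group

theorem cm_mul_right (x y z : G) : cm x (y * z) = cm x z * cj (cm x y) z := by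
  unfold cm cj; group

end Pool.Agent.H76.MB
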