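import Pool.Agent.H76.MB.Sand

/-!
# MB.FACTS: facts F1-F5 in sandwich sets
-/

set_option autoImplicit false

namespace Pool.Agent.H76.MB

variable {G : Type*} [Group G]

theorem cm_comm_of {x y t : G} (hx : Commute x t) (hy : Commute y t) : Commute (cm x y) t := by
  unfold cm
  exact ((hx.inv_left.mul_left hy.inv_left).mul_left hx).mul_left hy

namespace Sand

variable {X : Set G}

theorem inv_right_mem (hS : Sand X) {x y : G} (hx : x ∈ X) (hy : y ∈ X) :
    x * (cm x y)⁻¹ ∈ X := by
  have c := hS.c2 x hx y hy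
  have : x * (cm x y)⁻¹ = cj x y⁻¹ := by
    have e1 : cj (x * cm x y) y⁻¹ = x := by
      rw [← cj_eq, cj_cj, mul_inv_cancel, cj_one]
    rw [cj_mul, cj_eq_of_comm c.2.symm.inv_right] at e1
    exact (eq_mul_inv_iff_mul_eq.mpr e1).symm
  rw [this]
  exact hS.cj_mem x hx _

/-- F1. -/
theorem f1 (hG : OddG G) (hS : Sand X) {x y h : G} (hx : x ∈ X) (hy : y ∈ X) (hh : h ∈ X) :
    Commute (cm x y) (cm x h) := by
  have c := hS.c2 x hx y hy
  refine (lemS1 hG c.1 c.2 (hS.c2 x hx h hh) (hS.c2 _ ?_ h hh)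
    (hS.c2 _ (hS.inv_right_mem hx hy) h hh)).1
  rw [← cj_eq]
  exact hS.cj_mem x hx y

/-- F2, the commutation with the first letter. -/
theorem f2 (hG : OddG G) (hS : Sand X) {x y h : G} (hx : x ∈ X) (hy : y ∈ X) (hh : h ∈ X) :
    Commute x (cm (cm x y) h) := by
  have c := hS.c2 x hx y hy
  have ch := hS.c2 x hx h hh
  have hz := hS.cm_mem x hx y hy
  have hzq := f1 hG hS hx hy hh
  have h1 : Commute (cj x h) (cj (cm x y) h) := comm_cj c.1 h
  have h2 : Commute (cm x h) (cj (cm x y) h) := by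
    have := comm_cj hzq.symm h
    rwa [cj_eq_of_comm ch.2.symm] at this
  have h3 : Commute x (cj (cm x y) h) := by
    have e1 : cj x h * (cm x h)⁻¹ = x := by rw [cj_eq]; group
    have e2 := h1.mul_left h2.inv_left
    rwa [e1] at e2
  rw [cm_eq]
  exact c.1.inv_right.mul_right h3

theorem cm_inv_left (hS : Sand X) {u v : G} (hu : u ∈ X) (hv : v ∈ X) :
    cm u⁻¹ v = (cm u v)⁻¹ := by
  have c := hS.c2 u hu v hv
  have : cm u⁻¹ v = cj (cm u v)⁻¹ u⁻¹ := by unfold cm cj; group
  rw [this, cj_eq_of_comm c.1.symm.inv_left.inv_right]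

theorem cm_inv_right (hS : Sand X) {u v : G} (hu : u ∈ X) (hv : v ∈ X) :
    cm u v⁻¹ = (cm u v)⁻¹ := by
  rw [← cm_inv, cm_inv_left hS hv hu, ← cm_inv v u]

/-- F2, second letter. -/
theorem f2' (hG : OddG G) (hS : Sand X) {x y h : G} (hx : x ∈ X) (hy : y ∈ X) (hh : h ∈ X) :
    Commute y (cm (cm x y) h) := by
  have h1 := f2 hG hS hy hx hh
  rw [← cm_inv x y, cm_inv_left hS (hS.cm_mem x hx y hy) hh] at h1
  simpa using h1.inv_right

/-- F2, third letter. -/
theorem f2'' (hS : Sand X) {x y h : G} (hx : x ∈ X) (hy : y ∈ X) (hh : h ∈ X) :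
    Commute h (cm (cm x y) h) :=
  (hS.c2 _ (hS.cm_mem x hx y hy) h hh).2

/-- F3. -/
theorem f3 (hG : OddG G) (hS : Sand X) {y y' k : G} (hy : y ∈ X) (hy' : y' ∈ X) (hk : k ∈ X)
    (h : Commute y y') : cm (cm y k) y' = cm (cm y' k) y := by
  have hc := comm_cj h k
  rw [cj_eq y k, cj_eq y' k] at hc
  set c := cm y k with hcdef
  set c' := cm y' k with hc'def
  have hcc' : Commute c c' := by
    rw [hcdef, hc'def, ← cm_inv k y, ← cm_inv k y']
    exact (f1 hG hS hk hy hy').inv_inv
  -- y c y' c' = y' c' y c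
  have e1 : c * y' = y' * (c * cm c y') := by rw [← cj_eq]; unfold cj; group
  have e2 : c' * y = y * (c' * cm c' y) := by rw [← cj_eq]; unfold cj; group
  have g1 : Commute (cm c y') c' := by
    have a1 : Commute y' (cm c y') := f2'' hS hy hk hy'
    have a2 : Commute k (cm c y') := f2' hG hS hy hk hy'
    exact (cm_comm_of a1 a2).symm
  have g2 : Commute (cm c' y) c := by
    have a1 : Commute y (cm c' y) := f2'' hS hy' hk hy
    have a2 : Commute k (cm c' y) := f2' hG hS hy' hk hy
    exact (cm_comm_of a1 a2).symm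
  have e3 : y * c * (y' * c') = y * y' * (c * c' * cm c y') := by
    calc y * c * (y' * c') = y * (c * y') * c' := by group
      _ = y * y' * (c * (cm c y' * c')) := by rw [e1]; group
      _ = y * y' * (c * c' * cm c y') := by rw [g1.eq]; group
  have e4 : y' * c' * (y * c) = y * y' * (c * c' * cm c' y) := by
    calc y' * c' * (y * c) = y' * (c' * y) * c := by group
      _ = (y' * y) * (c' * (cm c' y * c)) := by rw [e2]; group
      _ = y * y' * (c * c' * cm c' y) := by rw [g2.eq, ← h.eq, hcc'.eq]; group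
  have e5 := hc.eq
  rw [e3, e4] at e5
  exact mul_left_cancel (mul_left_cancel e5)

/-- F3, second form. -/
theorem f3' (hG : OddG G) (hS : Sand X) {y y' k : G} (hy : y ∈ X) (hy' : y' ∈ X) (hk : k ∈ X)
    (h : Commute y y') : cm (cm y k) y' = (cm y (cm y' k))⁻¹ := by
  rw [f3 hG hS hy hy' hk h, cm_inv]

/-- F4. -/
theorem f4 (hG : OddG G) (hS : Sand X) {m b c : G} (hm : m ∈ X) (hb : b ∈ X) (hc : c ∈ X) :
    cm (cm m b) c = cm m (cm b c) * cm (cm m c) b ∧
      Commute (cm m (cm b c)) (cm (cm m c) b) := by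
  set β := cm b c with hβ
  have hβX : β ∈ X := hS.cm_mem b hb c hc
  have k1 : cj m (b * c) = m * cm m c * (cm m b * cm (cm m b) c) := by
    rw [← cj_cj, cj_eq m b, cj_mul, cj_eq m c, cj_eq (cm m b) c]
  have k2 : cj m (c * b) = m * cm m b * (cm m c * cm (cm m c) b) := by
    rw [← cj_cj, cj_eq m c, cj_mul, cj_eq m b, cj_eq (cm m c) b]
  have hbc : b * c = c * b * β := by rw [hβ]; unfold cm; group
  have f1a : Commute (cm m b) β := by
    rw [← cm_inv b m]
    exact (f1 hG hS hb hm hc).inv_left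
  have f1b : Commute (cm m c) β := by
    rw [← cm_inv c m, hβ, ← cm_inv c b]
    exact (f1 hG hS hc hm hb).inv_inv
  have f1c : Commute (cm m b) (cm m c) := f1 hG hS hm hb hc
  have f1d : Commute (cm m b) (cm m β) := f1 hG hS hm hb hβX
  have f1e : Commute (cm m c) (cm m β) := f1 hG hS hm hc hβX
  have a1 : Commute b (cm (cm m c) b) := f2'' hS hm hc hb
  have a2 : Commute c (cm (cm m c) b) := f2' hG hS hm hc hb
  have a3 : Commute m (cm (cm m c) b) := f2 hG hS hm hc hb
  have a4 : Commute β (cm (cm m c) b) := cm_comm_of a1 a2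
  have a5 : Commute (cm m β) (cm (cm m c) b) := cm_comm_of a3 a4
  refine ⟨?_, a5⟩
  have k3 : cj m (b * c) = m * cm m β * (cm m b * (cm m c * cm (cm m c) b)) := by
    rw [hbc, ← cj_cj, k2, cj_mul, cj_mul, cj_mul, cj_eq m β, cj_eq_of_comm f1a,
      cj_eq_of_comm f1b, cj_eq_of_comm a4.symm]
    group
  rw [k1] at k3
  have k4 : m * cm m c * (cm m b * cm (cm m b) c) = m * (cm m c * cm m b) * cm (cm m b) c := by
    group
  have k5 : m * cm m β * (cm m b * (cm m c * cm (cm m c) b)) =
      m * (cm m c * cm m b) * (cm m β * cm (cm m c) b) := by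
    calc m * cm m β * (cm m b * (cm m c * cm (cm m c) b))
        = m * (cm m β * (cm m b * cm m c)) * cm (cm m c) b := by group
      _ = m * ((cm m b * cm m c) * cm m β) * cm (cm m c) b := by
          rw [((f1d.mul_left f1e).symm).eq]
      _ = m * (cm m c * cm m b) * (cm m β * cm (cm m c) b) := by rw [f1c.eq]; group
  rw [k4, k5] at k3
  exact mul_left_cancel k3

/-- F5. -/
theorem f5 (hG : OddG G) (hS : Sand X) {u v k : G} (hu : u ∈ X) (hv : v ∈ X) (hk : k ∈ X)
    (h : Commute u v) (huv : u * v ∈ X) : Commute v (cm k u) := by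
  have c := hS.c2 _ huv k hk
  have hku := hS.cm_mem k hk u hu
  have hkv := hS.cm_mem k hk v hv
  -- [k, uv] = [k, v] [k, u]^v
  have e1 : cm k (u * v) = cm k v * cm k u * cm (cm k u) v := by
    rw [cm_mul_right, cj_eq, mul_assoc]
  have c1 : Commute (u * v) (cm k (u * v)) := by
    rw [← cm_inv]
    exact c.1.inv_right
  -- central elements
  set w := cm (cm k u) v with hw
  set w' := cm (cm k v) u with hw'
  have hwk : Commute k w := f2 hG hS hk hu hv
  have hwu : Commute u w := f2' hG hS hk hu hv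
  have hwv : Commute v w := f2'' hS hk hu hv
  have hwk' : Commute k w' := f2 hG hS hk hv hu
  have hwv' : Commute v w' := f2' hG hS hk hv hu
  have hwu' : Commute u w' := f2'' hS hk hv hu
  have e2 : cj (cm k v) (u * v) = cm k v * w' := by
    rw [← cj_cj, cj_eq (cm k v) u, ← hw', cj_mul, cj_eq_of_comm hwv'.symm,
      cj_eq_of_comm (hS.c2 k hk v hv).2.symm]
  have e3 : cj (cm k u) (u * v) = cm k u * w := by
    rw [← cj_cj, cj_eq_of_comm (hS.c2 k hk u hu).2.symm, cj_eq, ← hw]
  have e4 : cj w (u * v) = w := cj_eq_of_comm (hwu.mul_left hwv).symm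
  have e5 := cj_eq_of_comm c1.symm
  rw [e1, cj_mul, cj_mul, e2, e3, e4] at e5
  -- cm k v * w' * (cm k u * w) * w = cm k v * cm k u * w
  have hkuw' : Commute (cm k u) w' := cm_comm_of hwk' hwu'
  have e6 : w' * w = 1 := by
    have e7 : cm k v * w' * (cm k u * w) * w = cm k v * cm k u * w * (w' * w) := by
      calc cm k v * w' * (cm k u * w) * w = cm k v * (w' * cm k u) * w * w := by group
        _ = cm k v * (cm k u * w') * w * w := by rw [hkuw'.eq]
        _ = cm k v * cm k u * (w' * w) * w := by group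
        _ = cm k v * cm k u * (w * w') * w := by
          rw [((cm_comm_of (cm_comm_of hwk' hwu') hwv').eq : w * w' = w' * w)]
        _ = cm k v * cm k u * w * (w' * w) := by group
    rw [e7] at e5
    exact mul_eq_left.mp e5
  -- F3: w = w'
  have e8 : w = w' := by
    have h3 := f3 hG hS hu hv hk h
    rw [← cm_inv k u, ← cm_inv k v, cm_inv_left hS hku hv, cm_inv_left hS hkv hu, ← hw, ← hw',
      inv_inj] at h3
    exact h3
  have e9 : w = 1 := by
    apply eq_one_of_sq hG
    rw [pow_two]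
    nth_rewrite 1 [e8]
    exact e6
  have : Commute (cm k u) v := cm_eq_one.mp e9
  exact this.symm

theorem f5_right (hG : OddG G) (hS : Sand X) {u v k : G} (hu : u ∈ X) (hv : v ∈ X) (hk : k ∈ X)
    (h : Commute u v) (huv : u * v ∈ X) :
    cm k (u * v) = cm k u * cm k v ∧ Commute (cm k u) (cm k v) := by
  have c := f1 hG hS hk hu hv
  refine ⟨?_, c⟩
  rw [cm_mul_right, cj_eq_of_comm (f5 hG hS hu hv hk h huv).symm]
  exact c.symm.eq

theorem f5_left (hG : OddG G) (hS : Sand X) {u v k : G} (hu : u ∈ X) (hv : v ∈ X) (hk : k ∈ X)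
    (h : Commute u v) (huv : u * v ∈ X) :
    cm (u * v) k = cm u k * cm v k ∧ Commute (cm u k) (cm v k) := by
  obtain ⟨h1, h2⟩ := f5_right hG hS hu hv hk h huv
  constructor
  · rw [← cm_inv, h1, mul_inv_rev, cm_inv, cm_inv]
    have := h2.inv_inv
    rw [cm_inv, cm_inv] at this
    exact this.symm.eq
  · have := h2.inv_inv
    rwa [cm_inv, cm_inv] at this

end Sand

end Pool.Agent.H76.MB
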