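import Pool.Agent.H76.MB.QN

/-!
# MB.LCS: the lower central series
-/

set_option autoImplicit false

namespace Pool.Agent.H76.MB

open Subgroup
open scoped commutatorElement

/-- the lower central series of the whole group -/
abbrev lc (G : Type*) [Group G] (n : ℕ) : Subgroup G := (⊤ : Subgroup G).lowerCentralSeries n

theorem lc_normal (G : Type*) [Group G] (n : ℕ) : (lc G n).Normal := by
  unfold lc; infer_instance

theorem lc_anti {G : Type*} [Group G] {m k : ℕ} (h : m ≤ k) : lc G k ≤ lc G m :=
  Subgroup.lowerCentralSeries_antitone _ h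

theorem three_le {G : Type*} [Group G] (A B C N : Subgroup G) [N.Normal]
    (h1 : ⁅⁅B, C⁆, A⁆ ≤ N) (h2 : ⁅⁅C, A⁆, B⁆ ≤ N) : ⁅⁅A, B⁆, C⁆ ≤ N := by
  have key : ∀ H : Subgroup G, H ≤ N ↔ H.map (QuotientGroup.mk' N) = ⊥ := by
    intro H
    rw [Subgroup.map_eq_bot_iff, QuotientGroup.ker_mk']
  rw [key, Subgroup.map_commutator, Subgroup.map_commutator] at h1 h2 ⊢
  exact Subgroup.commutator_commutator_eq_bot_of_rotate h1 h2

theorem lc_comm_le (G : Type*) [Group G] (i j : ℕ) :
    ⁅lc G i, lc G j⁆ ≤ lc G (i + j + 1) := by
  induction j generalizing i with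
  | zero => exact le_of_eq rfl
  | succ j ih =>
    have hN : (lc G (i + (j + 1) + 1)).Normal := lc_normal G _
    have h0 : ⁅lc G i, lc G (j + 1)⁆ = ⁅⁅lc G j, (⊤ : Subgroup G)⁆, lc G i⁆ :=
      Subgroup.commutator_comm _ _
    rw [h0]
    apply three_le
    · rw [Subgroup.commutator_comm (⊤ : Subgroup G) (lc G i)]
      have h1 := ih (i + 1)
      rw [show i + 1 + j + 1 = i + (j + 1) + 1 by omega] at h1
      exact h1
    · have h1 := ih i
      have h2 : ⁅⁅lc G i, lc G j⁆, (⊤ : Subgroup G)⁆ ≤ ⁅lc G (i + j + 1), (⊤ : Subgroup G)⁆ :=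
        Subgroup.commutator_mono h1 le_rfl
      exact h2

theorem cm_eq_commutator {G : Type*} [Group G] (a b : G) : cm a b = ⁅a⁻¹, b⁻¹⁆ := by
  unfold cm; rw [commutatorElement_def, inv_inv, inv_inv]

theorem cm_mem_lc {G : Type*} [Group G] {i j : ℕ} {a b : G} (ha : a ∈ lc G i)
    (hb : b ∈ lc G j) : cm a b ∈ lc G (i + j + 1) := by
  rw [cm_eq_commutator]
  exact lc_comm_le G i j (Subgroup.commutator_mem_commutator (inv_mem ha) (inv_mem hb))

theorem mem_lc_zero {G : Type*} [Group G] (a : G) : a ∈ lc G 0 := mem_top a

theorem cm_mem_lc_one {G : Type*} [Group G] (a b : G) : cm a b ∈ lc G 1 := by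
  have h : cm a b ∈ lc G (0 + 0 + 1) := cm_mem_lc (i := 0) (j := 0) (mem_lc_zero a) (mem_lc_zero b)
  exact h

theorem cm_mem_lc_succ {G : Type*} [Group G] {i : ℕ} {a : G} (ha : a ∈ lc G i) (b : G) :
    cm a b ∈ lc G (i + 1) := by
  have h : cm a b ∈ lc G (i + 0 + 1) := cm_mem_lc (i := i) (j := 0) ha (mem_lc_zero b)
  rwa [Nat.add_zero] at h

theorem cm_map {G H : Type*} [Group G] [Group H] (f : G →* H) (a b : G) :
    f (cm a b) = cm (f a) (f b) := by
  unfold cm; simp

theorem itc_map {G H : Type*} [Group G] [Group H] (f : G →* H) (a : G) (l : List G) :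
    f (itc a l) = itc (f a) (l.map f) := by
  induction l generalizing a with
  | nil => rfl
  | cons b l ih => rw [List.map_cons, itc_cons, itc_cons, ih, cm_map]

theorem one_cm {G : Type*} [Group G] (b : G) : cm 1 b = 1 := by unfold cm; group

theorem one_itc {G : Type*} [Group G] (l : List G) : itc (1 : G) l = 1 := by
  induction l with
  | nil => rfl
  | cons b l ih => rw [itc_cons, one_cm, ih]

theorem lc_map {G H : Type*} [Group G] [Group H] (f : G →* H) (hf : Function.Surjective f)
    (n : ℕ) : (lc G n).map f = lc H n := by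
  unfold lc
  rw [Subgroup.map_lowerCentralSeries, map_top_of_surjective f hf]

theorem comm_closure {G : Type*} [Group G] {S : Set G} {z : G} (h : ∀ s ∈ S, Commute z s) {g : G}
    (hg : g ∈ closure S) : Commute z g := by
  induction hg using closure_induction with
  | mem x hx => exact h x hx
  | one => exact Commute.one_right z
  | mul x y _ _ hx hy => exact hx.mul_right hy
  | inv x _ hx => exact hx.inv_right

/-- If all left-normed commutators of weight `n + 1` in the generators are trivial, the group has
class at most `n`. -/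
theorem lc_of_gen (n : ℕ) : ∀ (K : Type*) [Group K] (S : Set K), closure S = ⊤ →
    (∀ s ∈ S, ∀ l : List K, (∀ b ∈ l, b ∈ S) → l.length = n → itc s l = 1) → lc K n = ⊥ := by
  induction n with
  | zero =>
    intro K _ S hS h
    have h1 : ∀ s ∈ S, s = 1 := fun s hs => h s hs [] (by simp) rfl
    change (⊤ : Subgroup K) = ⊥
    rw [← hS, closure_eq_bot_iff]
    intro s hs
    exact h1 s hs
  | succ n ih =>
    intro K _ S hS h
    have hsurj := QuotientGroup.mk'_surjective (center K)
    have h1 : lc (K ⧸ center K) n = ⊥ := by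
      refine ih (K ⧸ center K) (QuotientGroup.mk' (center K) '' S) ?_ ?_
      · rw [← MonoidHom.map_closure, hS, map_top_of_surjective _ hsurj]
      · rintro _ ⟨s, hs, rfl⟩ l hl hlen
        have hex : ∃ l' : List K, (∀ b ∈ l', b ∈ S) ∧
            l = l'.map (QuotientGroup.mk' (center K)) := by
          clear hlen
          induction l with
          | nil => exact ⟨[], by simp, rfl⟩
          | cons b l ihl =>
            obtain ⟨l', hl', rfl⟩ := ihl (fun c hc => hl c (by simp [hc]))
            obtain ⟨b', hb', rfl⟩ := hl b (by simp)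
            refine ⟨b' :: l', ?_, rfl⟩
            intro c hc
            rcases List.mem_cons.mp hc with h | h
            · rw [h]; exact hb'
            · exact hl' c h
        obtain ⟨l', hl', rfl⟩ := hex
        rw [← itc_map]
        have hz : itc s l' ∈ center K := by
          rw [mem_center_iff]
          intro g
          have hg : g ∈ closure S := by rw [hS]; exact mem_top g
          have : Commute (itc s l') g := by
            refine comm_closure (fun t ht => ?_) hg
            apply cm_eq_one.mp
            rw [← itc_snoc]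
            refine h s hs (l' ++ [t]) ?_ ?_
            · intro c hc
              rcases List.mem_append.mp hc with h | h
              · exact hl' c h
              · rw [List.mem_singleton.mp h]; exact ht
            · rw [List.length_append, List.length_singleton]
              rw [List.length_map] at hlen
              omega
          exact this.symm.eq
        rw [← MonoidHom.mem_ker, QuotientGroup.ker_mk']
        exact hz
    rw [← lc_map _ hsurj, Subgroup.map_eq_bot_iff, QuotientGroup.ker_mk'] at h1
    change ⁅lc K n, (⊤ : Subgroup K)⁆ = ⊥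
    rw [commutator_top_right_eq_bot_iff_le_center]
    exact h1

/-- The same for a subgroup generated by a set. -/
theorem lc_closure {G : Type*} [Group G] (S : Set G) (n : ℕ)
    (h : ∀ s ∈ S, ∀ l : List G, (∀ b ∈ l, b ∈ S) → l.length = n → itc s l = 1) :
    lc (closure S) n = ⊥ := by
  have hS : closure ((closure S).subtype ⁻¹' S) = ⊤ := by
    have := closure_closure_coe_preimage (k := S)
    exact this
  refine lc_of_gen n (closure S) ((closure S).subtype ⁻¹' S) hS ?_
  intro s hs l hl hlen
  apply (closure S).subtype_injective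
  rw [itc_map, map_one]
  refine h _ hs _ ?_ (by simpa using hlen)
  intro b hb
  obtain ⟨c, hc, rfl⟩ := List.mem_map.mp hb
  exact hl c hc

end Pool.Agent.H76.MB
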