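import Pool.Agent.H76.MB.Lcs

/-!
# MB.POLAR: polarisation of the law in groups of class at most five
-/

set_option autoImplicit false

namespace Pool.Agent.H76.MB

open Subgroup

/-- Formal polarisation. -/
theorem polar_formal {K A : Type*} [Mul K] [AddCommGroup A] (F : K → K → K → K → K → A)
    (h1 : ∀ a a' b c d e, F (a * a') b c d e = F a b c d e + F a' b c d e)
    (h2 : ∀ a b b' c d e, F a (b * b') c d e = F a b c d e + F a b' c d e)
    (h3 : ∀ a b c c' d e, F a b (c * c') d e = F a b c d e + F a b c' d e)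
    (h4 : ∀ a b c d d' e, F a b c (d * d') e = F a b c d e + F a b c d' e)
    (h5 : ∀ a b c d e e', F a b c d (e * e') = F a b c d e + F a b c d e')
    (h : ∀ x y, F x y x y x = 0) (a b c p q : K) :
    F a p b q c + F a q b p c + (F a p c q b + F a q c p b) + (F b p a q c + F b q a p c) +
      (F b p c q a + F b q c p a) + (F c p a q b + F c q a p b) +
      (F c p b q a + F c q b p a) = 0 := by
  have g : ∀ x, F x p x q x + F x q x p x = 0 := by
    intro x
    have e := h x (p * q)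
    rw [h2, h4, h4, h x p, h x q] at e
    rw [← e]; abel
  -- first polarisation in x
  have g2 : ∀ x y, (F x p x q y + F x q x p y) + (F x p y q x + F x q y p x) +
      (F y p x q x + F y q x p x) + ((F y p y q x + F y q y p x) + (F y p x q y + F y q x p y) +
      (F x p y q y + F x q y p y)) = 0 := by
    intro x y
    have e := g (x * y)
    simp only [h1, h3, h5] at e
    have ex := g x
    have ey := g y
    have key : (F x p x q y + F x q x p y) + (F x p y q x + F x q y p x) +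
      (F y p x q x + F y q x p x) + ((F y p y q x + F y q y p x) + (F y p x q y + F y q x p y) +
      (F x p y q y + F x q y p y)) = 0 - (F x p x q x + F x q x p x) -
        (F y p y q y + F y q y p y) := by
      rw [← e]; abel
    rw [key, ex, ey]; abel
  have e1 := g2 (a * b) c
  have e2 := g2 a c
  have e3 := g2 b c
  simp only [h1, h3, h5] at e1
  have key : F a p b q c + F a q b p c + (F a p c q b + F a q c p b) +
      (F b p a q c + F b q a p c) +
      (F b p c q a + F b q c p a) + (F c p a q b + F c q a p b) +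
      (F c p b q a + F c q b p a) = 0 - 0 - 0 := by
    nth_rewrite 1 [← e1]
    nth_rewrite 1 [← e2]
    rw [← e3]
    abel
  rw [key]; abel

section Multi

variable {K : Type*} [Group K]

/-- congruence modulo a normal subgroup -/
theorem cong_bil_left {i j : ℕ} {a a' b : K} (ha : a ∈ lc K i) (ha' : a' ∈ lc K i)
    (hb : b ∈ lc K j) : (cm a b * cm a' b)⁻¹ * cm (a * a') b ∈ lc K (i + j + 2) := by
  have h1 : cm a b ∈ lc K (i + j + 1) := cm_mem_lc ha hb
  have h2 : cm (cm a b) a' ∈ lc K (i + j + 1 + i + 1) := cm_mem_lc h1 ha'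
  have h3 : cm (cm a b) a' ∈ lc K (i + j + 2) := lc_anti (by omega) h2
  have h4 : (cm a b * cm a' b)⁻¹ * cm (a * a') b =
      (cm a' b)⁻¹ * cm (cm a b) a' * cm a' b := by
    rw [cm_mul_left, cj_eq (cm a b) a']; group
  rw [h4]
  have hn := lc_normal K (i + j + 2)
  have h5 := hn.conj_mem _ h3 (cm a' b)⁻¹
  rwa [inv_inv] at h5

theorem cong_bil_right {i j : ℕ} {a b b' : K} (ha : a ∈ lc K i) (hb : b ∈ lc K j)
    (hb' : b' ∈ lc K j) : (cm a b * cm a b')⁻¹ * cm a (b * b') ∈ lc K (i + j + 2) := by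
  have h1 : cm a b ∈ lc K (i + j + 1) := cm_mem_lc ha hb
  have h1' : cm a b' ∈ lc K (i + j + 1) := cm_mem_lc ha hb'
  have h2 : cm (cm a b) b' ∈ lc K (i + j + 1 + j + 1) := cm_mem_lc h1 hb'
  have h3 : cm (cm a b) b' ∈ lc K (i + j + 2) := lc_anti (by omega) h2
  have h6 : cm (cm a b') (cm a b) ∈ lc K (i + j + 1 + (i + j + 1) + 1) := cm_mem_lc h1' h1
  have h7 : cm (cm a b') (cm a b) ∈ lc K (i + j + 2) := lc_anti (by omega) h6
  have h4 : (cm a b * cm a b')⁻¹ * cm a (b * b') =
      cm (cm a b') (cm a b) * cm (cm a b) b' := by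
    rw [cm_mul_right, cj_eq (cm a b) b']
    unfold cm
    group
  rw [h4]
  exact mul_mem h7 h3

theorem cong_left {i j : ℕ} {a a' b : K} (hb : b ∈ lc K j) (h : a⁻¹ * a' ∈ lc K (i + 1)) :
    (cm a b)⁻¹ * cm a' b ∈ lc K (i + j + 2) := by
  set z := a⁻¹ * a' with hz
  have ha' : a' = a * z := by rw [hz]; group
  have h1 : cm a b ∈ lc K (0 + j + 1) := cm_mem_lc (mem_lc_zero a) hb
  have h2 : cm (cm a b) z ∈ lc K (0 + j + 1 + (i + 1) + 1) := cm_mem_lc h1 h
  have h3 : cm (cm a b) z ∈ lc K (i + j + 2) := lc_anti (by omega) h2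
  have h4 : cm z b ∈ lc K (i + 1 + j + 1) := cm_mem_lc h hb
  have h5 : cm z b ∈ lc K (i + j + 2) := lc_anti (by omega) h4
  have h6 : (cm a b)⁻¹ * cm a' b = cm (cm a b) z * cm z b := by
    rw [ha', cm_mul_left, cj_eq (cm a b) z]; group
  rw [h6]
  exact mul_mem h3 h5

theorem cong_right {i j : ℕ} {a b b' : K} (ha : a ∈ lc K i) (h : b⁻¹ * b' ∈ lc K (j + 1)) :
    (cm a b)⁻¹ * cm a b' ∈ lc K (i + j + 2) := by
  have h1 := cong_left (i := j) (j := i) ha h
  rw [show j + i + 2 = i + j + 2 by omega] at h1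
  rw [← cm_inv a b, ← cm_inv a b', inv_inv] at h1
  -- h1 : cm a b * (cm a b')⁻¹ ∈ N
  have hn := lc_normal K (i + j + 2)
  have h2 := inv_mem h1
  rw [mul_inv_rev, inv_inv] at h2
  have h3 := hn.conj_mem _ h2 (cm a b)⁻¹
  have h4 : (cm a b)⁻¹ * (cm a b' * (cm a b)⁻¹) * (cm a b)⁻¹⁻¹ = (cm a b)⁻¹ * cm a b' := by
    group
  rwa [h4] at h3

/-- transitivity of the congruence -/
theorem cong_trans {N : Subgroup K} {a b c : K} (h1 : a⁻¹ * b ∈ N) (h2 : b⁻¹ * c ∈ N) :
    a⁻¹ * c ∈ N := by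
  have : a⁻¹ * c = (a⁻¹ * b) * (b⁻¹ * c) := by group
  rw [this]
  exact mul_mem h1 h2

/-- the five-variable commutator -/
def F5 (a b c d e : K) : K := cm (cm a b) (cm (cm c d) e)

variable (h5 : lc K 5 = ⊥)

include h5

theorem F5_mem_center (a b c d e : K) : F5 a b c d e ∈ center K := by
  have h1 : cm (cm c d) e ∈ lc K (1 + 1) := cm_mem_lc_succ (cm_mem_lc_one c d) e
  have h2 : F5 a b c d e ∈ lc K (1 + (1 + 1) + 1) := cm_mem_lc (cm_mem_lc_one a b) h1
  have h3 : ⁅lc K 4, (⊤ : Subgroup K)⁆ = ⊥ := h5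
  rw [commutator_top_right_eq_bot_iff_le_center] at h3
  exact h3 h2

theorem eq_of_cong {a b : K} (h : a⁻¹ * b ∈ lc K 5) : a = b := by
  rw [h5, mem_bot, inv_mul_eq_one] at h
  exact h

theorem bil_left {a a' W : K} (ha : a ∈ lc K 1) (ha' : a' ∈ lc K 1) (hW : W ∈ lc K 2) :
    cm (a * a') W = cm a W * cm a' W :=
  (eq_of_cong h5 (cong_bil_left (i := 1) (j := 2) ha ha' hW)).symm

theorem bil_right {a W W' : K} (ha : a ∈ lc K 1) (hW : W ∈ lc K 2) (hW' : W' ∈ lc K 2) :
    cm a (W * W') = cm a W * cm a W' :=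
  (eq_of_cong h5 (cong_bil_right (i := 1) (j := 2) ha hW hW')).symm

theorem cg_left {a a' W : K} (hW : W ∈ lc K 2) (h : a⁻¹ * a' ∈ lc K 2) :
    cm a W = cm a' W :=
  eq_of_cong h5 (cong_left (i := 1) (j := 2) hW h)

theorem cg_right {a W W' : K} (ha : a ∈ lc K 1) (h : W⁻¹ * W' ∈ lc K 3) :
    cm a W = cm a W' :=
  eq_of_cong h5 (cong_right (i := 1) (j := 2) ha h)

omit h5 in
theorem w_mem (c d e : K) : cm (cm c d) e ∈ lc K 2 := cm_mem_lc_succ (cm_mem_lc_one c d) e

theorem F5_mul1 (a a' b c d e : K) :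
    F5 (a * a') b c d e = F5 a b c d e * F5 a' b c d e := by
  unfold F5
  have hW := w_mem c d e
  rw [← bil_left h5 (cm_mem_lc_one a b) (cm_mem_lc_one a' b) hW]
  exact (cg_left h5 hW (cong_bil_left (i := 0) (j := 0) (mem_lc_zero a) (mem_lc_zero a')
    (mem_lc_zero b))).symm

theorem F5_mul2 (a b b' c d e : K) :
    F5 a (b * b') c d e = F5 a b c d e * F5 a b' c d e := by
  unfold F5
  have hW := w_mem c d e
  rw [← bil_left h5 (cm_mem_lc_one a b) (cm_mem_lc_one a b') hW]
  exact (cg_left h5 hW (cong_bil_right (i := 0) (j := 0) (mem_lc_zero a) (mem_lc_zero b)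
    (mem_lc_zero b'))).symm

theorem F5_mul5 (a b c d e e' : K) :
    F5 a b c d (e * e') = F5 a b c d e * F5 a b c d e' := by
  unfold F5
  rw [← bil_right h5 (cm_mem_lc_one a b) (w_mem c d e) (w_mem c d e')]
  exact (cg_right h5 (cm_mem_lc_one a b) (cong_bil_right (i := 1) (j := 0) (cm_mem_lc_one c d)
    (mem_lc_zero e) (mem_lc_zero e'))).symm

omit h5 in
theorem cong_inner {B C D e : K} (hB : B ∈ lc K 1) (hC : C ∈ lc K 1)
    (h : (B * C)⁻¹ * D ∈ lc K 2) : (cm B e * cm C e)⁻¹ * cm D e ∈ lc K 3 := by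
  have h1 := cong_bil_left (i := 1) (j := 0) hB hC (mem_lc_zero e)
  have h2 := cong_left (i := 1) (j := 0) (mem_lc_zero e) h
  exact cong_trans h1 h2

theorem F5_mul3 (a b c c' d e : K) :
    F5 a b (c * c') d e = F5 a b c d e * F5 a b c' d e := by
  unfold F5
  rw [← bil_right h5 (cm_mem_lc_one a b) (w_mem c d e) (w_mem c' d e)]
  exact (cg_right h5 (cm_mem_lc_one a b) (cong_inner (cm_mem_lc_one c d) (cm_mem_lc_one c' d)
    (cong_bil_left (i := 0) (j := 0) (mem_lc_zero c) (mem_lc_zero c') (mem_lc_zero d)))).symm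

theorem F5_mul4 (a b c d d' e : K) :
    F5 a b c (d * d') e = F5 a b c d e * F5 a b c d' e := by
  unfold F5
  rw [← bil_right h5 (cm_mem_lc_one a b) (w_mem c d e) (w_mem c d' e)]
  exact (cg_right h5 (cm_mem_lc_one a b) (cong_inner (cm_mem_lc_one c d) (cm_mem_lc_one c d')
    (cong_bil_right (i := 0) (j := 0) (mem_lc_zero c) (mem_lc_zero d) (mem_lc_zero d')))).symm

theorem polar (hL : LawL K) (a b c p q : K) :
    F5 a p b q c * F5 a q b p c * (F5 a p c q b * F5 a q c p b) *
      (F5 b p a q c * F5 b q a p c) * (F5 b p c q a * F5 b q c p a) *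
      (F5 c p a q b * F5 c q a p b) * (F5 c p b q a * F5 c q b p a) = 1 := by
  let _ : CommGroup (center K) :=
    { (inferInstance : Group (center K)) with
      mul_comm := fun x y => Subtype.ext ((mem_center_iff.mp y.2) x) }
  let F : K → K → K → K → K → Additive (center K) := fun a b c d e =>
    Additive.ofMul ⟨F5 a b c d e, F5_mem_center h5 a b c d e⟩
  have h := polar_formal F
    (fun a a' b c d e => congrArg Additive.ofMul (Subtype.ext (F5_mul1 h5 a a' b c d e)))
    (fun a b b' c d e => congrArg Additive.ofMul (Subtype.ext (F5_mul2 h5 a b b' c d e)))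
    (fun a b c c' d e => congrArg Additive.ofMul (Subtype.ext (F5_mul3 h5 a b c c' d e)))
    (fun a b c d d' e => congrArg Additive.ofMul (Subtype.ext (F5_mul4 h5 a b c d d' e)))
    (fun a b c d e e' => congrArg Additive.ofMul (Subtype.ext (F5_mul5 h5 a b c d e e')))
    (fun x y => congrArg Additive.ofMul (Subtype.ext (by
      change F5 x y x y x = 1
      unfold F5
      apply cm_eq_one.mpr
      have h1 := hL x y
      rw [cj_eq (cm x y) x] at h1
      have h2 : cm (cm x y) x = (cm x y)⁻¹ * (cm x y * cm (cm x y) x) := by group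
      rw [h2]
      exact (Commute.refl _).inv_right.mul_right h1))) a b c p q
  have h' := congrArg (fun z => ((Additive.toMul z : center K) : K)) h
  exact h'

end Multi

end Pool.Agent.H76.MB
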