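import Pool.Agent.H76.MB.Facts

/-!
# MB.QN: iterated commutators in sandwich sets
-/

set_option autoImplicit false

namespace Pool.Agent.H76.MB

variable {G : Type*} [Group G]

/-- `[x, b₁, …, b_n]`. -/
def itc (x : G) (l : List G) : G := l.foldl cm x

@[simp] theorem itc_nil (x : G) : itc x [] = x := rfl

@[simp] theorem itc_cons (x b : G) (l : List G) : itc x (b :: l) = itc (cm x b) l := rfl

theorem itc_append (x : G) (l m : List G) : itc x (l ++ m) = itc (itc x l) m := by
  unfold itc; rw [List.foldl_append]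

theorem itc_snoc (x : G) (l : List G) (k : G) : itc x (l ++ [k]) = cm (itc x l) k := by
  rw [itc_append]; rfl

/-- `[x, [x, b₁, …, b_n]]`. -/
def gam (x : G) (l : List G) : G := cm x (itc x l)

/-- The statement `Q(n)`. -/
def Q (X : Set G) (n : ℕ) : Prop :=
  ∀ x ∈ X, ∀ l : List G, (∀ b ∈ l, b ∈ X) → l.length = n → gam x l = 1

namespace Sand

variable {X : Set G}

theorem itc_mem (hS : Sand X) {x : G} (hx : x ∈ X) {l : List G} (hl : ∀ b ∈ l, b ∈ X) :
    itc x l ∈ X := by
  induction l generalizing x with
  | nil => exact hx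
  | cons b l ih =>
    rw [itc_cons]
    exact ih (hS.cm_mem x hx b (hl b (by simp))) (fun c hc => hl c (by simp [hc]))

/-- F6. -/
theorem itc_mul (hG : OddG G) (hS : Sand X) {l : List G} (hl : ∀ b ∈ l, b ∈ X) :
    ∀ {u v : G}, u ∈ X → v ∈ X → Commute u v → u * v ∈ X →
      itc (u * v) l = itc u l * itc v l ∧ Commute (itc u l) (itc v l) := by
  induction l with
  | nil => intro u v _ _ h _; exact ⟨rfl, h⟩
  | cons b l ih =>
    intro u v hu hv h huv
    have hb : b ∈ X := hl b (by simp)
    obtain ⟨h1, h2⟩ := f5_left hG hS hu hv hb h huv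
    rw [itc_cons, itc_cons, itc_cons, h1]
    exact ih (fun c hc => hl c (by simp [hc])) (hS.cm_mem u hu b hb) (hS.cm_mem v hv b hb) h2
      (by rw [← h1]; exact hS.cm_mem _ huv b hb)

/-- The swap of two adjacent letters in `gam`. -/
theorem gam_swap (hG : OddG G) (hS : Sand X) {N : ℕ} (hQ : Q X N) {x b c : G} {l m : List G}
    (hx : x ∈ X) (hb : b ∈ X) (hc : c ∈ X) (hl : ∀ d ∈ l, d ∈ X) (hm : ∀ d ∈ m, d ∈ X)
    (hlen : l.length + m.length + 1 = N) :
    gam x (l ++ b :: c :: m) = gam x (l ++ c :: b :: m) := by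
  have hy : itc x l ∈ X := hS.itc_mem hx hl
  have hbc : cm b c ∈ X := hS.cm_mem b hb c hc
  have hu : cm (itc x l) (cm b c) ∈ X := hS.cm_mem _ hy _ hbc
  have hv : cm (cm (itc x l) c) b ∈ X := hS.cm_mem _ (hS.cm_mem _ hy c hc) b hb
  obtain ⟨h1, h2⟩ := f4 hG hS hy hb hc
  have huv : cm (itc x l) (cm b c) * cm (cm (itc x l) c) b ∈ X := by
    rw [← h1]; exact hS.cm_mem _ (hS.cm_mem _ hy b hb) c hc
  obtain ⟨h3, h4⟩ := itc_mul hG hS hm hu hv h2 huv
  have hU : itc (cm (itc x l) (cm b c)) m ∈ X := hS.itc_mem hu hm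
  have hV : itc (cm (cm (itc x l) c) b) m ∈ X := hS.itc_mem hv hm
  have hUV : itc (cm (itc x l) (cm b c)) m * itc (cm (cm (itc x l) c) b) m ∈ X := by
    rw [← h3]; exact hS.itc_mem huv hm
  have h5 := (f5_right hG hS hU hV hx h4 hUV).1
  have h6 : cm x (itc (cm (itc x l) (cm b c)) m) = 1 := by
    have := hQ x hx (l ++ cm b c :: m) (by
      intro d hd
      rcases List.mem_append.mp hd with h | h
      · exact hl d h
      · rcases List.mem_cons.mp h with h | h
        · rw [h]; exact hbc
        · exact hm d h) (by simp; omega)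
    unfold gam at this
    rwa [itc_append, itc_cons] at this
  unfold gam
  rw [itc_append, itc_append, itc_cons, itc_cons, itc_cons, itc_cons, h1, h3, h5, h6, one_mul]

/-- `gam` is symmetric. -/
theorem gam_perm (hG : OddG G) (hS : Sand X) {N : ℕ} (hQ : Q X N) {x : G} (hx : x ∈ X)
    {l m : List G} (h : l.Perm m) : ∀ p : List G, (∀ d ∈ p, d ∈ X) → (∀ d ∈ l, d ∈ X) →
      p.length + l.length = N + 1 → gam x (p ++ l) = gam x (p ++ m) := by
  induction h with
  | nil => intro p _ _ _; rfl
  | cons a h ih =>
    intro p hp hl hlen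
    rename_i l1 l2
    have := ih (p ++ [a]) (by
      intro d hd
      rcases List.mem_append.mp hd with h | h
      · exact hp d h
      · rw [List.mem_singleton.mp h]; exact hl a (by simp)) (fun d hd => hl d (by simp [hd]))
      (by simp at hlen ⊢; omega)
    simpa using this
  | swap a b l =>
    intro p hp hl hlen
    exact gam_swap hG hS hQ hx (hl b (by simp)) (hl a (by simp)) hp
      (fun d hd => hl d (by simp [hd])) (by simp at hlen ⊢; omega)
  | trans h1 h2 ih1 ih2 =>
    intro p hp hl hlen
    rw [ih1 p hp hl hlen]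
    exact ih2 p hp (fun d hd => hl d (h1.mem_iff.mpr hd)) (by rw [← h1.length_eq]; exact hlen)

theorem gam_perm' (hG : OddG G) (hS : Sand X) {N : ℕ} (hQ : Q X N) {x : G} (hx : x ∈ X)
    {l m : List G} (h : l.Perm m) (hl : ∀ d ∈ l, d ∈ X) (hlen : l.length = N + 1) :
    gam x l = gam x m := by
  have := gam_perm hG hS hQ hx h [] (by simp) hl (by simpa using hlen)
  simpa using this

/-- `[[x, B], [x, C]] = gam x (B ++ C) ^ ((-1) ^ |B|)`. -/
theorem rel (hG : OddG G) (hS : Sand X) : ∀ N : ℕ, (∀ m < N, Q X m) → ∀ x ∈ X,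
    ∀ B C : List G, (∀ d ∈ B, d ∈ X) → (∀ d ∈ C, d ∈ X) → B.length + C.length = N →
      cm (itc x B) (itc x C) = gam x (B ++ C) ^ ((-1 : ℤ) ^ B.length) := by
  intro N
  induction N with
  | zero =>
    intro _ x hx B C _ _ hlen
    have hB : B = [] := List.length_eq_zero_iff.mp (by omega)
    have hC : C = [] := List.length_eq_zero_iff.mp (by omega)
    subst hB; subst hC
    simp [gam]
  | succ N ih =>
    intro hQ x hx B
    have ihN := ih (fun m hm => hQ m (by omega)) x hx
    have hQN := hQ N (by omega)
    induction B using List.reverseRecOn with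
    | nil =>
      intro C _ _ _
      simp [gam]
    | append_singleton B k ihB =>
      intro C hB hC hlen
      have hBX : ∀ d ∈ B, d ∈ X := fun d hd => hB d (by simp [hd])
      have hkX : k ∈ X := hB k (by simp)
      have hlen' : B.length + C.length = N := by simp at hlen; omega
      have hy : itc x B ∈ X := hS.itc_mem hx hBX
      have hy' : itc x C ∈ X := hS.itc_mem hx hC
      have hcomm : Commute (itc x B) (itc x C) := by
        apply cm_eq_one.mp
        rw [ihN B C hBX hC hlen', hQN x hx (B ++ C) (by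
          intro d hd
          rcases List.mem_append.mp hd with h | h
          · exact hBX d h
          · exact hC d h) (by simp; omega), one_zpow]
      have h1 := f3' hG hS hy hy' hkX hcomm
      rw [itc_snoc, h1, ← itc_snoc x C k]
      rw [ihB (C ++ [k]) hBX (by
        intro d hd
        rcases List.mem_append.mp hd with h | h
        · exact hC d h
        · rw [List.mem_singleton.mp h]; exact hkX) (by simp; omega)]
      have hperm : (B ++ (C ++ [k])).Perm ((B ++ [k]) ++ C) := by
        rw [List.append_assoc]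
        exact List.Perm.append_left B List.perm_append_comm
      rw [gam_perm' hG hS hQN hx hperm (by
        intro d hd
        rcases List.mem_append.mp hd with h | h
        · exact hBX d h
        · rcases List.mem_append.mp h with h | h
          · exact hC d h
          · rw [List.mem_singleton.mp h]; exact hkX) (by simp; omega)]
      rw [← zpow_neg]
      congr 1
      rw [List.length_append, List.length_singleton, pow_succ]
      ring

/-- Even `N`. -/
theorem Q_even (hG : OddG G) (hS : Sand X) {N : ℕ} (hN : Even N) (hQ : ∀ m < N, Q X m) :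
    Q X N := by
  intro x hx l hl hlen
  have h1 := rel hG hS N hQ x hx l [] hl (by simp) (by simpa using hlen)
  rw [hlen, hN.neg_one_pow, zpow_one, List.append_nil, itc_nil, ← cm_inv] at h1
  have h2 : (gam x l)⁻¹ = gam x l := h1
  apply eq_one_of_sq hG
  rw [pow_two]
  nth_rewrite 1 [← h2]
  exact inv_mul_cancel _

theorem Q_zero : Q X 0 := by
  intro x _ l _ hlen
  have : l = [] := List.length_eq_zero_iff.mp hlen
  subst this
  exact cm_eq_one.mpr (Commute.refl x)

theorem Q_one (hS : Sand X) : Q X 1 := by
  intro x hx l hl hlen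
  obtain ⟨b, rfl⟩ := List.length_eq_one_iff.mp hlen
  exact cm_eq_one.mpr (hS.c2 x hx b (hl b (by simp))).1

end Sand

end Pool.Agent.H76.MB
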