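import Pool.Agent.H76.MB.Def

/-!
# MB.SAND: sandwich sets
-/

set_option autoImplicit false

namespace Pool.Agent.H76.MB

variable {G : Type*} [Group G]

theorem C2.comm_cj {x y : G} (h : C2 x y) : Commute x (cj x y) := by
  rw [cj_eq]
  exact (Commute.refl x).mul_right h.1

theorem C2.comm_cj' {x y : G} (h : C2 x y) : Commute y (cj y x) := by
  rw [cj_eq, ← cm_inv]
  exact (Commute.refl y).mul_right h.2.inv_right

theorem C2.symm {x y : G} (h : C2 x y) : C2 y x := by
  constructor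
  · rw [← cm_inv]; exact h.2.inv_right
  · rw [← cm_inv]; exact h.1.inv_right

theorem C2_of {x y : G} (h1 : Commute x (cj x y)) (h2 : Commute y (cj y x)) : C2 x y := by
  constructor
  · rw [cm_eq]
    exact (Commute.refl x).inv_right.mul_right h1
  · rw [← cm_inv, cm_eq, mul_inv_rev, inv_inv]
    exact h2.inv_right.mul_right (Commute.refl y)

/-- Lemma S1. -/
theorem lemS1 (hG : OddG G) {x y h : G} (hx : Commute x (cm x y)) (hy : Commute y (cm x y))
    (h0 : C2 x h) (h1 : C2 (x * cm x y) h) (h2 : C2 (x * (cm x y)⁻¹) h) :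
    Commute (cm x y) (cm x h) ∧ C2 (cm x y) h := by
  set z := cm x y with hz
  set q := cm x h with hq
  set s := h * q⁻¹ with hs
  have hxq : Commute x q := h0.1
  have hhq : Commute h q := h0.2
  have hsq : Commute s q := by
    rw [hs]; exact hhq.mul_left (Commute.refl q).inv_left
  have hxh : cj x h = x * q := cj_eq x h
  set zs := cj z s with hzs
  have hzh : cj z h = q⁻¹ * zs * q := by
    rw [hzs, hs]; unfold cj; group
  have hcx : Commute (cj z h) (x * q) := by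
    rw [← hxh]; exact comm_cj hx.symm h
  -- the two relations
  have main : ∀ u us : G, Commute x u → us = q * cj u h * q⁻¹ →
      Commute (x * q) (cj u h) → C2 (x * u) h → cj u q * cj us q = us * u := by
    intro u us hxu hus hcu hc
    have h3 := hc.comm_cj
    rw [cj_mul, hxh] at h3
    have hu : cj u h = q⁻¹ * us * q := by rw [hus]; group
    have h4 := h3.eq
    have h5 : x * u * (x * q * cj u h) = x * x * (u * q * cj u h) := by
      calc x * u * (x * q * cj u h) = x * (u * x) * q * cj u h := by group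
        _ = x * x * (u * q * cj u h) := by rw [← hxu.eq]; group
    have h6 : x * q * cj u h * (x * u) = x * x * (q * q * cj u h * q⁻¹ * u) := by
      calc x * q * cj u h * (x * u) = x * q * (cj u h * (x * q)) * q⁻¹ * u := by group
        _ = x * (q * x) * q * cj u h * q⁻¹ * u := by rw [← hcu.eq]; group
        _ = x * x * (q * q * cj u h * q⁻¹ * u) := by rw [← hxq.eq]; group
    rw [h5, h6] at h4
    have h7 : u * q * cj u h = q * q * cj u h * q⁻¹ * u := mul_left_cancel h4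
    rw [hu] at h7
    have h8 : q⁻¹ * u * us * q = us * u := by
      calc q⁻¹ * u * us * q = q⁻¹ * (u * q * (q⁻¹ * us * q)) := by group
        _ = q⁻¹ * (q * q * (q⁻¹ * us * q) * q⁻¹ * u) := by rw [h7]
        _ = us * u := by group
    rw [← h8]; unfold cj; group
  have m1 : cj z q * cj zs q = zs * z := by
    refine main z zs hx ?_ hcx.symm h1
    rw [hzh]; group
  have m2 : cj z⁻¹ q * cj zs⁻¹ q = zs⁻¹ * z⁻¹ := by
    refine main z⁻¹ zs⁻¹ hx.inv_right ?_ ?_ h2
    · rw [cj_inv, hzh]; group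
    · rw [cj_inv]; exact hcx.symm.inv_right
  have m3 : cj zs q * cj z q = z * zs := by
    rw [cj_inv, cj_inv] at m2
    have := congrArg (fun t => t⁻¹) m2
    simpa using this
  -- q ^ 2 commutes with z * zs
  have n1 : Commute (z * zs) (q ^ 2) := by
    apply comm_of_cj_eq
    rw [pow_two, ← cj_cj, cj_mul, m1, cj_mul, m3]
  have n2 : Commute (z * zs) q := comm_of_sq hG n1
  have n3 : z * zs = zs * z := by
    have := cj_eq_of_comm n2
    rw [cj_mul, m1] at this
    exact this.symm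
  -- x0 = z⁻¹ * cj z q is inverted
  have n4 : cj zs q = cj (cj z q) s := by
    rw [hzs, cj_cj, cj_cj, hsq.eq]
  have n5 : cj z q * cj (cj z q) s = z * zs := by rw [← n4, m1, n3]
  have n6 : z⁻¹ * cj z q = 1 := by
    apply eq_one_of_cj_inv hG (t := z⁻¹ * s)
    rw [← cj_cj]
    have e1 : cj (z⁻¹ * cj z q) z⁻¹ = cj z q * z⁻¹ := by
      generalize cj z q = g
      unfold cj; group
    rw [e1, cj_mul, cj_inv z s, ← hzs]
    have e2 : cj (cj z q) s = (cj z q)⁻¹ * (z * zs) := by rw [← n5]; group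
    rw [e2]; group
  have hzq : Commute z q := by
    apply comm_of_cj_eq
    have := n6
    rw [inv_mul_eq_one] at this
    exact this.symm
  refine ⟨hzq, C2_of ?_ ?_⟩
  · have h3 : cj (cj z h) q⁻¹ = zs := by rw [hzh]; unfold cj; group
    apply comm_of_comm_cj (t := q⁻¹)
    rw [h3, cj_eq_of_comm hzq.inv_right]
    exact n3
  · have h3 := h1.comm_cj'
    have h4 : cj h (x * z) = cj h z * q⁻¹ := by
      rw [← cj_cj]
      have : cj h x = h * q⁻¹ := by rw [cj_eq, ← cm_inv]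
      rw [this, cj_mul, cj_eq_of_comm hzq.symm.inv_left]
    rw [h4] at h3
    have h5 : cj h z = (cj h z * q⁻¹) * q := by group
    rw [h5]
    exact h3.mul_right hhq

/-- Sandwich sets. -/
structure Sand (X : Set G) : Prop where
  cj_mem : ∀ x ∈ X, ∀ g : G, cj x g ∈ X
  c2 : ∀ x ∈ X, ∀ y ∈ X, C2 x y
  cm_mem : ∀ x ∈ X, ∀ y ∈ X, cm x y ∈ X

/-- Lemma S2. -/
theorem lemS2 (hG : OddG G) {X : Set G} (h1 : ∀ x ∈ X, ∀ g : G, cj x g ∈ X)
    (h2 : ∀ x ∈ X, ∀ y ∈ X, C2 x y) :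
    (∀ x ∈ X ∪ {z | ∃ a ∈ X, ∃ b ∈ X, z = cm a b}, ∀ g : G,
      cj x g ∈ X ∪ {z | ∃ a ∈ X, ∃ b ∈ X, z = cm a b}) ∧
    (∀ x ∈ X ∪ {z | ∃ a ∈ X, ∃ b ∈ X, z = cm a b},
      ∀ y ∈ X ∪ {z | ∃ a ∈ X, ∃ b ∈ X, z = cm a b}, C2 x y) := by
  have key1 : ∀ a ∈ X, ∀ b ∈ X, ∀ h : G, (∀ x ∈ X, C2 x h) → C2 (cm a b) h := by
    intro a ha b hb h hh
    have c := h2 a ha b hb
    refine (lemS1 hG c.1 c.2 (hh a ha) ?_ ?_).2
    · apply hh
      rw [← cj_eq]
      exact h1 a ha b
    · apply hh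
      have : a * (cm a b)⁻¹ = cj a b⁻¹ := by
        have e1 : cj (a * cm a b) b⁻¹ = a := by
          rw [← cj_eq, cj_cj, mul_inv_cancel, cj_one]
        rw [cj_mul, cj_eq_of_comm c.2.symm.inv_right] at e1
        exact (eq_mul_inv_iff_mul_eq.mpr e1).symm
      rw [this]
      exact h1 a ha b⁻¹
  have key2 : ∀ a ∈ X, ∀ b ∈ X, ∀ h ∈ X, C2 (cm a b) h := fun a ha b hb h hh =>
    key1 a ha b hb h (fun x hx => h2 x hx h hh)
  constructor
  · rintro x (hx | ⟨a, ha, b, hb, rfl⟩) g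
    · exact Or.inl (h1 x hx g)
    · exact Or.inr ⟨cj a g, h1 a ha g, cj b g, h1 b hb g, cj_cm a b g⟩
  · rintro x (hx | ⟨a, ha, b, hb, rfl⟩) y (hy | ⟨c, hc, d, hd, rfl⟩)
    · exact h2 x hx y hy
    · exact (key2 c hc d hd x hx).symm
    · exact key2 a ha b hb y hy
    · exact key1 a ha b hb _ (fun x hx => (key2 c hc d hd x hx).symm)

/-- The chain of sets. -/
def chain (X : Set G) : ℕ → Set G
  | 0 => X
  | n + 1 => chain X n ∪ {z | ∃ a ∈ chain X n, ∃ b ∈ chain X n, z = cm a b}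

theorem chain_spec (hG : OddG G) {X : Set G} (h1 : ∀ x ∈ X, ∀ g : G, cj x g ∈ X)
    (h2 : ∀ x ∈ X, ∀ y ∈ X, C2 x y) (n : ℕ) :
    (∀ x ∈ chain X n, ∀ g : G, cj x g ∈ chain X n) ∧
      (∀ x ∈ chain X n, ∀ y ∈ chain X n, C2 x y) := by
  induction n with
  | zero => exact ⟨h1, h2⟩
  | succ n ih => exact lemS2 hG ih.1 ih.2

theorem chain_mono (X : Set G) : Monotone (chain X) := by
  apply monotone_nat_of_le_succ
  intro n x hx
  exact Or.inl hx

/-- Every conjugation invariant set of pairwise class-2 pairs lies in a sandwich set. -/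
theorem exists_sand (hG : OddG G) {X : Set G} (h1 : ∀ x ∈ X, ∀ g : G, cj x g ∈ X)
    (h2 : ∀ x ∈ X, ∀ y ∈ X, C2 x y) : ∃ Y : Set G, X ⊆ Y ∧ Sand Y := by
  refine ⟨⋃ n, chain X n, Set.subset_iUnion (chain X) 0, ?_, ?_, ?_⟩
  · intro x hx g
    obtain ⟨n, hn⟩ := Set.mem_iUnion.mp hx
    exact Set.mem_iUnion.mpr ⟨n, (chain_spec hG h1 h2 n).1 x hn g⟩
  · intro x hx y hy
    obtain ⟨n, hn⟩ := Set.mem_iUnion.mp hx
    obtain ⟨m, hm⟩ := Set.mem_iUnion.mp hy
    exact (chain_spec hG h1 h2 (max n m)).2 x (chain_mono X (le_max_left n m) hn) y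
      (chain_mono X (le_max_right n m) hm)
  · intro x hx y hy
    obtain ⟨n, hn⟩ := Set.mem_iUnion.mp hx
    obtain ⟨m, hm⟩ := Set.mem_iUnion.mp hy
    refine Set.mem_iUnion.mpr ⟨max n m + 1, Or.inr ⟨x, chain_mono X (le_max_left n m) hn, y,
      chain_mono X (le_max_right n m) hm, rfl⟩⟩

end Pool.Agent.H76.MB
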